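import Pool.Agent.helper14.NS.Q45d.PZ

/-!
Generated: certificates.
-/

namespace Pool.Agent.helper14.NS.Q45d

open Pool.Agent.helper31.IA (Z)
open Pool.Agent.helper31.IX (Op XOps runX Cov CovD cov_split covD_split)
open Pool.Agent.helper31.IC (TD)
open Pool.Agent.helper63.RG (reloc)
open Pool.Agent.helper63.NF hiding TD
open Pool.Agent.helper4.NS
open Pool.Agent.helper14.CF (xE covD_E)
open Pool.Agent.helper14.NR (share)

mutual
theorem Z_c0_t3 : CovD 1 gZ [(20301479936, 4132438016), (1236950581248, 137438953472), (220721053696, 220721053696)] :=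
  covD_E kZ_eq (.n 2 (.n 2 (.n 0 (.n 2 (.l 0) (.l 0)) (.n 2 (.l 0) (.l 0))) (.n 2 (.n 0 (.l 0) (.l 0)) (.l 0))) (.n 2 (.n 2 (.l 0) (.l 0)) (.n 0 (.l 0) (.l 0))))
    [(20301479936, 4132438016), (1236950581248, 137438953472), (220721053696, 220721053696)] rfl (by decide +kernel)
theorem Z_c0_t5 : CovD 1 gZ [(18235260928, 2066219008), (1236950581248, 137438953472), (662163161088, 220721053696)] :=
  covD_E kZ_eq (.n 2 (.n 2 (.l 0) (.l 0)) (.n 1 (.n 2 (.l 0) (.n 2 (.l 0) (.n 2 (.l 0) (.n 1 (.n 0 (.l 0) (.n 0 (.l 0) (.l 0))) (.l 0))))) (.n 2 (.l 0) (.n 2 (.l 0) (.n 0 (.l 0) (.l 0))))))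
    [(18235260928, 2066219008), (1236950581248, 137438953472), (662163161088, 220721053696)] rfl (by decide +kernel)
end

mutual
theorem Z_c0_t7 : CovD 1 gZ [(22367698944, 2066219008), (1236950581248, 137438953472), (551802634240, 110360526848)] :=
  covD_E kZ_eq (.n 2 (.l 0) (.l 0))
    [(22367698944, 2066219008), (1236950581248, 137438953472), (551802634240, 110360526848)] rfl (by decide +kernel)
theorem Z_c0_t9 : CovD 1 gZ [(22367698944, 2066219008), (1236950581248, 137438953472), (717343424512, 55180263424)] :=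
  covD_E kZ_eq (.n 2 (.l 0) (.l 0))
    [(22367698944, 2066219008), (1236950581248, 137438953472), (717343424512, 55180263424)] rfl (by decide +kernel)
end

mutual
theorem Z_c0_t11 : CovD 1 gZ [(22367698944, 2066219008), (1168231104512, 68719476736), (827703951360, 55180263424)] :=
  covD_E kZ_eq (.n 0 (.n 2 (.l 0) (.n 2 (.l 0) (.n 1 (.n 0 (.l 0) (.n 1 (.l 0) (.l 0))) (.l 0)))) (.n 2 (.l 0) (.n 1 (.n 2 (.l 0) (.n 2 (.l 0) (.n 0 (.l 0) (.n 1 (.l 0) (.l 0))))) (.n 2 (.l 0) (.n 0 (.l 0) (.l 0))))))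
    [(22367698944, 2066219008), (1168231104512, 68719476736), (827703951360, 55180263424)] rfl (by decide +kernel)
theorem Z_c0_t12 : CovD 1 gZ [(22367698944, 2066219008), (1305670057984, 68719476736), (827703951360, 55180263424)] :=
  covD_E kZ_eq (.n 2 (.l 0) (.n 2 (.l 0) (.n 0 (.l 0) (.l 0))))
    [(22367698944, 2066219008), (1305670057984, 68719476736), (827703951360, 55180263424)] rfl (by decide +kernel)
end

mutual
theorem Z_c0_t14 : CovD 1 gZ [(20301479936, 4132438016), (1511828488192, 137438953472), (220721053696, 220721053696)] :=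
  covD_E kZ_eq (.n 2 (.n 2 (.n 2 (.n 2 (.l 0) (.l 0)) (.n 2 (.l 0) (.l 0))) (.n 0 (.n 2 (.l 0) (.l 0)) (.n 2 (.l 0) (.l 0)))) (.n 2 (.n 2 (.n 0 (.l 0) (.l 0)) (.l 0)) (.n 0 (.l 0) (.l 0))))
    [(20301479936, 4132438016), (1511828488192, 137438953472), (220721053696, 220721053696)] rfl (by decide +kernel)
theorem Z_c0_t15 : CovD 1 gZ [(20301479936, 4132438016), (1511828488192, 137438953472), (662163161088, 220721053696)] :=
  covD_E kZ_eq (.n 0 (.n 2 (.n 2 (.l 0) (.l 0)) (.n 2 (.l 0) (.n 2 (.l 0) (.n 0 (.l 0) (.l 0))))) (.n 2 (.n 2 (.l 0) (.l 0)) (.n 2 (.l 0) (.n 2 (.l 0) (.n 0 (.l 0) (.n 1 (.l 0) (.l 0)))))))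
    [(20301479936, 4132438016), (1511828488192, 137438953472), (662163161088, 220721053696)] rfl (by decide +kernel)
end

mutual
theorem Z_c0_t19 : CovD 1 gZ [(18235260928, 2066219008), (1924145348608, 274877906944), (110360526848, 110360526848)] :=
  covD_E kZ_eq (.n 1 (.n 2 (.n 0 (.n 2 (.l 0) (.l 0)) (.n 2 (.l 0) (.l 0))) (.n 2 (.n 0 (.l 0) (.l 0)) (.l 0))) (.n 2 (.n 2 (.n 2 (.l 0) (.l 0)) (.n 2 (.l 0) (.l 0))) (.n 2 (.n 0 (.l 0) (.l 0)) (.l 0))))
    [(18235260928, 2066219008), (1924145348608, 274877906944), (110360526848, 110360526848)] rfl (by decide +kernel)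
theorem Z_c0_t20 : CovD 1 gZ [(18235260928, 2066219008), (1924145348608, 274877906944), (331081580544, 110360526848)] :=
  covD_E kZ_eq (.n 2 (.n 0 (.n 2 (.l 0) (.l 0)) (.n 1 (.l 0) (.l 0))) (.n 2 (.l 0) (.l 0)))
    [(18235260928, 2066219008), (1924145348608, 274877906944), (331081580544, 110360526848)] rfl (by decide +kernel)
end

mutual
theorem Z_c0_t21 : CovD 1 gZ [(18235260928, 2066219008), (1924145348608, 274877906944), (662163161088, 220721053696)] :=
  covD_E kZ_eq (.n 1 (.n 2 (.n 2 (.l 0) (.l 0)) (.n 2 (.l 0) (.n 0 (.l 0) (.l 0)))) (.n 2 (.n 2 (.l 0) (.l 0)) (.n 2 (.l 0) (.l 0))))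
    [(18235260928, 2066219008), (1924145348608, 274877906944), (662163161088, 220721053696)] rfl (by decide +kernel)
theorem Z_c0_t23 : CovD 1 gZ [(22367698944, 2066219008), (1924145348608, 274877906944), (220721053696, 220721053696)] :=
  covD_E kZ_eq (.n 2 (.n 0 (.n 2 (.n 2 (.l 0) (.l 0)) (.n 2 (.l 0) (.l 0))) (.n 2 (.n 2 (.l 0) (.l 0)) (.n 2 (.l 0) (.l 0)))) (.n 2 (.n 2 (.l 0) (.l 0)) (.n 1 (.l 0) (.l 0))))
    [(22367698944, 2066219008), (1924145348608, 274877906944), (220721053696, 220721053696)] rfl (by decide +kernel)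
end

mutual
theorem Z_c0_t24 : CovD 1 gZ [(22367698944, 2066219008), (1924145348608, 274877906944), (662163161088, 220721053696)] :=
  covD_E kZ_eq (.n 1 (.n 2 (.n 2 (.l 0) (.l 0)) (.n 2 (.l 0) (.n 2 (.l 0) (.l 0)))) (.n 2 (.n 2 (.l 0) (.l 0)) (.n 2 (.l 0) (.l 0))))
    [(22367698944, 2066219008), (1924145348608, 274877906944), (662163161088, 220721053696)] rfl (by decide +kernel)
theorem T_c0 : CovD 1 gT [(20301479936, 4132438016), (1649267441664, 549755813888)] :=
  covD_E kT_eq (.n 1 (.l 0) (.l 0))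
    [(20301479936, 4132438016), (1649267441664, 549755813888)] rfl (by decide +kernel)
end

theorem S_c0 : CovD 0 gS [(20301479936, 4132438016), (1649267441664, 549755813888)] :=
  covD_E kS_eq (.l 0)
    [(20301479936, 4132438016), (1649267441664, 549755813888)] rfl (by decide +kernel)

theorem Z_c0_t10 : CovD 1 gZ [(22367698944, 2066219008), (1236950581248, 137438953472), (827703951360, 55180263424)] :=
  covD_split 1 (by decide +kernel) Z_c0_t11 Z_c0_t12

theorem Z_c0_t8 : CovD 1 gZ [(22367698944, 2066219008), (1236950581248, 137438953472), (772523687936, 110360526848)] :=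
  covD_split 2 (by decide +kernel) Z_c0_t9 Z_c0_t10

theorem Z_c0_t6 : CovD 1 gZ [(22367698944, 2066219008), (1236950581248, 137438953472), (662163161088, 220721053696)] :=
  covD_split 2 (by decide +kernel) Z_c0_t7 Z_c0_t8

theorem Z_c0_t4 : CovD 1 gZ [(20301479936, 4132438016), (1236950581248, 137438953472), (662163161088, 220721053696)] :=
  covD_split 0 (by decide +kernel) Z_c0_t5 Z_c0_t6

theorem Z_c0_t2 : CovD 1 gZ [(20301479936, 4132438016), (1236950581248, 137438953472), (441442107392, 441442107392)] :=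
  covD_split 2 (by decide +kernel) Z_c0_t3 Z_c0_t4

theorem Z_c0_t13 : CovD 1 gZ [(20301479936, 4132438016), (1511828488192, 137438953472), (441442107392, 441442107392)] :=
  covD_split 2 (by decide +kernel) Z_c0_t14 Z_c0_t15

theorem Z_c0_t1 : CovD 1 gZ [(20301479936, 4132438016), (1374389534720, 274877906944), (441442107392, 441442107392)] :=
  covD_split 1 (by decide +kernel) Z_c0_t2 Z_c0_t13

theorem Z_c0_t18 : CovD 1 gZ [(18235260928, 2066219008), (1924145348608, 274877906944), (220721053696, 220721053696)] :=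
  covD_split 2 (by decide +kernel) Z_c0_t19 Z_c0_t20

theorem Z_c0_t17 : CovD 1 gZ [(18235260928, 2066219008), (1924145348608, 274877906944), (441442107392, 441442107392)] :=
  covD_split 2 (by decide +kernel) Z_c0_t18 Z_c0_t21

theorem Z_c0_t22 : CovD 1 gZ [(22367698944, 2066219008), (1924145348608, 274877906944), (441442107392, 441442107392)] :=
  covD_split 2 (by decide +kernel) Z_c0_t23 Z_c0_t24

theorem Z_c0_t16 : CovD 1 gZ [(20301479936, 4132438016), (1924145348608, 274877906944), (441442107392, 441442107392)] :=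
  covD_split 0 (by decide +kernel) Z_c0_t17 Z_c0_t22

theorem Z_c0 : CovD 1 gZ [(20301479936, 4132438016), (1649267441664, 549755813888), (441442107392, 441442107392)] :=
  covD_split 1 (by decide +kernel) Z_c0_t1 Z_c0_t16

end Pool.Agent.helper14.NS.Q45d
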