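import Pool.Agent.helper14.NS.Q45d.Tab
import Pool.Agent.helper14.NR.Share

/-!
Generated: programs and compiled forms.
-/

namespace Pool.Agent.helper14.NS.Q45d

open Pool.Agent.helper31.IA (Z)
open Pool.Agent.helper31.IX (Op XOps runX Cov CovD cov_split covD_split)
open Pool.Agent.helper31.IC (TD)
open Pool.Agent.helper63.RG (reloc)
open Pool.Agent.helper63.NF hiding TD
open Pool.Agent.helper4.NS
open Pool.Agent.helper14.CF (xE covD_E)
open Pool.Agent.helper14.NR (share)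

def p_Z_0 : List Op := [
  .const ⟨1099511627776, 0, 0, 0⟩,
  .mul 1 2,
  .scale ⟨2199023255552, 0, 0, 0⟩ 0,
  .exp 1,
  .neg 2,
  .exp 0,
  .mul 2 2,
  .mul 1 1,
  .mul 0 0,
  .add 2 1,
  .scale ⟨549755813888, 0, 0, 0⟩ 0,
  .scale ⟨2199023255552, 0, 0, 0⟩ 12,
  .mul 10 10,
  .lt 0 68719476736,
  .scale ⟨9162596898, 0, 0, 0⟩ 0,
  .const ⟨183251937962, 0, 0, 0⟩,
  .add 1 0,
  .mul 0 3,
  .const ⟨1099511627776, 0, 0, 0⟩,
  .add 1 0,
  .const ⟨65536, 0, 0, 0⟩,
  .rball 1 0,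
  .mul 9 0,
  .add 18 16,
  .scale ⟨549755813888, 0, 0, 0⟩ 0,
  .mul 2 0,
  .mul 3 3,
  .mul 26 0,
  .mul 2 2,
  .mul 28 0,
  .neg 17,
  .exp 0,
  .add 0 30,
  .pos 0,
  .log 0,
  .const ⟨20300431360, 0, 0, 0⟩,
  .sub 34 0,
  .const ⟨1649267441664, 0, 0, 0⟩,
  .sub 37 0,
  .mul 0 0,
  .mul 0 1,
  .mul 4 2,
  .mul 5 5,
  .scale ⟨20592464448, 0, 0, 0⟩ 4,
  .scale ⟨0, 4489442304, 0, 0⟩ 4,
  .add 1 0,
  .scale ⟨2481014208, 0, 0, 0⟩ 5,
  .add 1 0,
  .scale ⟨0, 1532928944192, 0, 0⟩ 11,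
  .add 1 0,
  .scale ⟨0, 376911297600, 0, 0⟩ 8,
  .add 1 0,
  .scale ⟨13188742281408, 0, 0, 0⟩ 9,
  .add 1 0,
  .const ⟨539934566656, 0, 0, 0⟩,
  .add 1 0,
  .scale ⟨0, 2326898624, 0, 0⟩ 17,
  .scale ⟨1166315648, 0, 0, 0⟩ 17,
  .add 1 0,
  .scale ⟨355642641664, 0, 0, 0⟩ 22,
  .add 1 0,
  .scale ⟨24216638272, 0, 0, 0⟩ 19,
  .add 1 0,
  .const ⟨1046090368, 0, 0, 0⟩,
  .add 1 0,
  .scale ⟨143228864, 0, 0, 0⟩ 26,
  .scale ⟨0, 246099072, 0, 0⟩ 26,
  .add 1 0,
  .scale ⟨0, 45705931904, 0, 0⟩ 31,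
  .add 1 0,
  .const ⟨0, 6515904, 0, 0⟩,
  .add 1 0,
  .scale ⟨0, 5331200, 0, 0⟩ 33,
  .scale ⟨2420987136, 0, 0, 0⟩ 36,
  .add 1 0,
  .const ⟨0, 8831808, 0, 0⟩,
  .add 1 0,
  .scale ⟨0, 338432, 0, 0⟩ 38,
  .const ⟨2241216, 0, 0, 0⟩,
  .add 1 0,
  .scale ⟨0, 0, 1099511627776, 0⟩ 80,
  .scale ⟨549755813888, 0, 0, 0⟩ 0,
  .add 0 79,
  .inv 0,
  .mul 3 0,
  .scale ⟨0, 23325590959680, 0, 0⟩ 0,
  .const ⟨39100974011264, 0, 0, 0⟩,
  .add 1 0,
  .mul 3 0,
  .const ⟨0, 55556734491776, 0, 0⟩,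
  .add 1 0,
  .mul 6 0,
  .const ⟨44844150310528, 0, 0, 0⟩,
  .add 1 0,
  .mul 9 0,
  .const ⟨0, 29379331501504, 0, 0⟩,
  .add 1 0,
  .mul 12 0,
  .const ⟨12306001486336, 0, 0, 0⟩,
  .add 1 0,
  .mul 15 0,
  .scale ⟨0, 231958503296, 0, 0⟩ 62,
  .scale ⟨0, 39867433827136, 0, 0⟩ 65,
  .add 1 0,
  .const ⟨0, 4194173167552, 0, 0⟩,
  .add 1 0,
  .add 5 0,
  .mul 22 0,
  .scale ⟨0, 314362621568, 0, 0⟩ 69,
  .scale ⟨0, 17831066888128, 0, 0⟩ 72,
  .add 1 0,
  .const ⟨1399167112384, 0, 0, 0⟩,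
  .add 1 0,
  .add 5 0,
  .mul 29 0,
  .scale ⟨638571246912, 0, 0, 0⟩ 76,
  .scale ⟨17718828819904, 0, 0, 0⟩ 79,
  .add 1 0,
  .const ⟨72265417472, 0, 0, 0⟩,
  .add 1 0,
  .add 5 0,
  .mul 36 0,
  .scale ⟨0, 412171765696, 0, 0⟩ 83,
  .scale ⟨0, 31983094866112, 0, 0⟩ 86,
  .add 1 0,
  .const ⟨386144415488, 0, 0, 0⟩,
  .add 1 0,
  .add 5 0,
  .mul 43 0,
  .scale ⟨0, 59284299328, 0, 0⟩ 90,
  .scale ⟨0, 16213791884480, 0, 0⟩ 93,
  .add 1 0,
  .const ⟨1507403372032, 0, 0, 0⟩,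
  .add 1 0,
  .add 5 0,
  .mul 50 0,
  .scale ⟨139994767552, 0, 0, 0⟩ 97,
  .scale ⟨5274629240640, 0, 0, 0⟩ 100,
  .add 1 0,
  .const ⟨3557928230016, 0, 0, 0⟩,
  .add 1 0,
  .add 5 0,
  .mul 57 0,
  .scale ⟨86017702976, 0, 0, 0⟩ 104,
  .scale ⟨5432820352, 0, 0, 0⟩ 104,
  .add 1 0,
  .scale ⟨6799371285312, 0, 0, 0⟩ 109,
  .add 1 0,
  .scale ⟨5043486583040, 0, 0, 0⟩ 106,
  .add 1 0,
  .scale ⟨13271688248128, 0, 0, 0⟩ 107,
  .add 1 0,
  .const ⟨122753118592, 0, 0, 0⟩,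
  .add 1 0,
  .mul 0 153,
  .add 12 0,
  .mul 154 154,
  .scale ⟨5703716569088, 0, 0, 0⟩ 0,
  .const ⟨1726576852992, 0, 0, 0⟩,
  .add 1 0,
  .scale ⟨4398046511104, 0, 0, 0⟩ 159,
  .mul 76 1,
  .scale ⟨4398046511104, 0, 0, 0⟩ 0,
  .add 2 0,
  .const ⟨332492308480, 0, 0, 0⟩,
  .mul 0 1,
  .scale ⟨879662989312, 0, 0, 0⟩ 2,
  .add 0 164,
  .pos 0,
  .inv 0,
  .mul 3 0,
  .neg 14,
  .exp 0,
  .add 0 169,
  .pos 0,
  .log 0,
  .mul 4 175,
  .sub 172 0,
  .pos 0,
  .log 0,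
  .mul 5 2,
  .add 0 175,
  .pos 0,
  .log 0,
  .sub 6 0,
  .add 180 146,
  .sub 1 0,
  .mul 0 181,
  .exp 0,
  .sub 5 8,
  .add 0 30,
  .mul 0 185,
  .exp 0,
  .mul 165 165,
  .scale ⟨274877906944, 0, 0, 0⟩ 0,
  .mul 34 0,
  .scale ⟨1649267441664, 0, 0, 0⟩ 0,
  .add 0 190,
  .mul 34 0,
  .mul 195 0,
  .scale ⟨0, 0, 1099511627776, 0⟩ 0,
  .mul 0 0,
  .sub 7 0,
  .mul 14 14,
  .mul 0 1,
  .mul 44 0,
  .scale ⟨4398046511104, 0, 0, 0⟩ 0,
  .sub 200 0,
  .pos 0,
  .log 0,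
  .scale ⟨549755813888, 0, 0, 0⟩ 0,
  .exp 0,
  .mul 205 7,
  .mul 17 19,
  .scale ⟨2199023255552, 0, 0, 0⟩ 10,
  .add 1 0,
  .mul 3 0,
  .mul 15 5,
  .mul 28 0,
  .add 2 0,
  .mul 26 0,
  .scale ⟨4398046511104, 0, 0, 0⟩ 0,
  .mul 215 0,
  .add 0 215,
  .pos 0,
  .log 0,
  .scale ⟨549755813888, 0, 0, 0⟩ 0,
  .exp 0,
  .add 0 219,
  .pos 0,
  .inv 0,
  .mul 7 0,
  .scale ⟨549755813888, 0, 0, 0⟩ 196,
  .sub 1 0,
  .const ⟨9351217545216, 0, 0, 0⟩,
  .add 198 0,
  .pos 0,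
  .mul 2 2,
  .sub 0 200,
  .inv 2,
  .mul 1 0,
  .lt 0 1099510579200,
  .mul 231 48,
  .mul 0 37,
  .scale ⟨2199023255552, 0, 0, 0⟩ 0,
  .sub 29 0,
  .pos 0,
  .add 231 229,
  .mul 41 0,
  .mul 237 0,
  .add 0 227,
  .pos 0,
  .inv 0,
  .mul 229 3,
  .add 0 212,
  .mul 2 0,
  .pos 243,
  .inv 243,
  .sub 19 1,
  .mul 0 1,
  .add 9 221,
  .mul 239 8,
  .inv 1,
  .mul 1 0,
  .mul 0 4,
  .mul 251 0,
  .add 0 251,
  .scale ⟨0, 292462723072, 0, 0⟩ 216,
  .scale ⟨0, 3659988992, 0, 0⟩ 216,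
  .add 1 0,
  .scale ⟨91393425408, 0, 0, 0⟩ 217,
  .add 1 0,
  .scale ⟨0, 14341765201920, 0, 0⟩ 223,
  .add 1 0,
  .scale ⟨0, 968295448576, 0, 0⟩ 220,
  .add 1 0,
  .const ⟨1058446180352, 0, 0, 0⟩,
  .add 1 0,
  .scale ⟨2199023255552, 0, 0, 0⟩ 13,
  .inv 12,
  .mul 16 0,
  .mul 2 0,
  .mul 261 261,
  .inv 5,
  .mul 1 0,
  .mul 3 0,
  .lt 0 1099510579200,
  .mul 272 47,
  .add 0 262,
  .pos 0,
  .inv 0,
  .mul 267 0,
  .sub 51 251,
  .add 269 2,
  .mul 1 0,
  .mul 3 0,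
  .mul 272 255,
  .scale ⟨2199023255552, 0, 0, 0⟩ 0,
  .add 2 0,
  .scale ⟨0, 39771397160960, 0, 0⟩ 248,
  .const ⟨0, 1468610379776, 0, 0⟩,
  .add 1 0,
  .sub 3 0,
  .pos 0,
  .inv 0,
  .scale ⟨31362867265536, 0, 0, 0⟩ 0,
  .add 2 0,
  .pos 0,
  .inv 0,
  .scale ⟨0, 96718763392, 0, 0⟩ 254,
  .scale ⟨0, 2966141020928, 0, 0⟩ 257,
  .add 1 0,
  .const ⟨0, 25741162368, 0, 0⟩,
  .add 1 0,
  .scale ⟨0, 228623102912, 0, 0⟩ 259,
  .scale ⟨63335249955008, 0, 0, 0⟩ 262,
  .add 1 0,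
  .const ⟨789029931200, 0, 0, 0⟩,
  .add 1 0,
  .mul 13 0,
  .add 6 0,
  .mul 0 12,
  .scale ⟨8128, 0, 0, 0⟩ 21,
  .const ⟨0, 193024, 0, 0⟩,
  .add 1 0,
  .mul 24 0,
  .add 0 230,
  .mul 26 0,
  .add 0 235,
  .mul 28 0,
  .add 0 242,
  .mul 30 0,
  .add 0 251,
  .mul 32 0,
  .add 12 262,
  .add 1 0,
  .mul 38 0,
  .add 0 307,
  .neg 0,
  .exp 0,
  .add 0 321,
  .pos 0,
  .log 0,
  .add 170 152,
  .sub 0 1,
  .scale ⟨549755813888, 0, 0, 0⟩ 108,
  .mul 0 83,
  .sub 2 0,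
  .exp 0,
  .scale ⟨214485762048, 0, 0, 0⟩ 247,
  .const ⟨0, 244647460864, 0, 0⟩,
  .add 1 0,
  .mul 250 0,
  .const ⟨168512716800, 0, 0, 0⟩,
  .add 1 0,
  .mul 253 0,
  .scale ⟨0, 61078175744, 0, 0⟩ 300,
  .scale ⟨493571866624, 0, 0, 0⟩ 303,
  .add 1 0,
  .const ⟨12967084032, 0, 0, 0⟩,
  .add 1 0,
  .add 5 0,
  .mul 260 0,
  .scale ⟨30521688064, 0, 0, 0⟩ 307,
  .scale ⟨5018140999680, 0, 0, 0⟩ 310,
  .add 1 0,
  .const ⟨61236641792, 0, 0, 0⟩,
  .add 1 0,
  .add 5 0,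
  .mul 267 0,
  .scale ⟨0, 11534336, 0, 0⟩ 314,
  .scale ⟨3196256256, 0, 0, 0⟩ 314,
  .add 1 0,
  .scale ⟨0, 100316676096, 0, 0⟩ 319,
  .add 1 0,
  .scale ⟨1322457300992, 0, 0, 0⟩ 316,
  .add 1 0,
  .scale ⟨40904732508160, 0, 0, 0⟩ 317,
  .add 1 0,
  .const ⟨1099421319168, 0, 0, 0⟩,
  .add 1 0,
  .add 11 0,
  .inv 199,
  .mul 0 198,
  .scale ⟨879662989312, 0, 0, 0⟩ 140,
  .add 0 365,
  .pos 0,
  .const ⟨65311014912, 0, 0, 0⟩,
  .scale ⟨2199023255552, 0, 0, 0⟩ 0,
  .add 144 344,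
  .mul 1 0,
  .inv 4,
  .mul 1 0,
  .const ⟨0, 0, 0, 0⟩,
  .mul 11 44,
  .mul 0 53,
  .mul 3 11,
  .mul 1 0,
  .rball 4 0,
  .sub 378 16,
  .mul 383 0,
  .sub 380 51,
  .mul 0 17,
  .mul 20 0,
  .add 3 0,
  .add 0 6,
  .lt 0 1099510579200]

set_option maxRecDepth 1000000 in
noncomputable def c_Z_0 {α : Type} (cst : Z → α) (add sub mul : α → α → α) (scale : Z → α → α)
    (neg inv exp log : α → α) (ok : α → Bool) (isPos : Nat → α → Bool) (isLt : α → Nat → Bool)
    (ball : Nat → α → α) (rball : α → α → α) : List α → Bool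
  | [x0, x1, x2, x3] =>
  let v0 := cst ⟨1099511627776, 0, 0, 0⟩; ok v0 && (
  let v1 := mul x0 x1; ok v1 && (
  let v2 := scale ⟨2199023255552, 0, 0, 0⟩ v1; ok v2 && (
  let v3 := exp v1; ok v3 && (
  let v4 := neg v1; ok v4 && (
  let v5 := exp v4; ok v5 && (
  let v6 := mul v3 v3; ok v6 && (
  let v7 := mul v5 v5; ok v7 && (
  let v8 := mul v7 v7; ok v8 && (
  let v9 := add v6 v7; ok v9 && (
  let v10 := scale ⟨549755813888, 0, 0, 0⟩ v9; ok v10 && (
  let v11 := scale ⟨2199023255552, 0, 0, 0⟩ x1; ok v11 && (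
  let v12 := mul v1 v1; ok v12 && (
  isLt v12 68719476736 && (
  let v13 := scale ⟨9162596898, 0, 0, 0⟩ v12; ok v13 && (
  let v14 := cst ⟨183251937962, 0, 0, 0⟩; ok v14 && (
  let v15 := add v13 v14; ok v15 && (
  let v16 := mul v15 v12; ok v16 && (
  let v17 := cst ⟨1099511627776, 0, 0, 0⟩; ok v17 && (
  let v18 := add v16 v17; ok v18 && (
  let v19 := cst ⟨65536, 0, 0, 0⟩; ok v19 && (
  let v20 := rball v18 v19; ok v20 && (
  let v21 := mul v11 v20; ok v21 && (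
  let v22 := add v3 v5; ok v22 && (
  let v23 := scale ⟨549755813888, 0, 0, 0⟩ v22; ok v23 && (
  let v24 := mul v21 v23; ok v24 && (
  let v25 := mul v21 v21; ok v25 && (
  let v26 := mul x0 v25; ok v26 && (
  let v27 := mul v24 v24; ok v27 && (
  let v28 := mul x0 v27; ok v28 && (
  let v29 := neg v11; ok v29 && (
  let v30 := exp v29; ok v30 && (
  let v31 := add v30 v0; ok v31 && (
  isPos 3 v31 && (
  let v32 := log v31; ok v32 && (
  let v33 := cst ⟨20300431360, 0, 0, 0⟩; ok v33 && (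
  let v34 := sub x0 v33; ok v34 && (
  let v35 := cst ⟨1649267441664, 0, 0, 0⟩; ok v35 && (
  let v36 := sub x1 v35; ok v36 && (
  let v37 := mul v36 v36; ok v37 && (
  let v38 := mul v37 v36; ok v38 && (
  let v39 := mul v34 v36; ok v39 && (
  let v40 := mul v34 v34; ok v40 && (
  let v41 := scale ⟨20592464448, 0, 0, 0⟩ v36; ok v41 && (
  let v42 := scale ⟨0, 4489442304, 0, 0⟩ v37; ok v42 && (
  let v43 := add v41 v42; ok v43 && (
  let v44 := scale ⟨2481014208, 0, 0, 0⟩ v38; ok v44 && (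
  let v45 := add v43 v44; ok v45 && (
  let v46 := scale ⟨0, 1532928944192, 0, 0⟩ v34; ok v46 && (
  let v47 := add v45 v46; ok v47 && (
  let v48 := scale ⟨0, 376911297600, 0, 0⟩ v39; ok v48 && (
  let v49 := add v47 v48; ok v49 && (
  let v50 := scale ⟨13188742281408, 0, 0, 0⟩ v40; ok v50 && (
  let v51 := add v49 v50; ok v51 && (
  let v52 := cst ⟨539934566656, 0, 0, 0⟩; ok v52 && (
  let v53 := add v51 v52; ok v53 && (
  let v54 := scale ⟨0, 2326898624, 0, 0⟩ v36; ok v54 && (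
  let v55 := scale ⟨1166315648, 0, 0, 0⟩ v37; ok v55 && (
  let v56 := add v54 v55; ok v56 && (
  let v57 := scale ⟨355642641664, 0, 0, 0⟩ v34; ok v57 && (
  let v58 := add v56 v57; ok v58 && (
  let v59 := scale ⟨24216638272, 0, 0, 0⟩ v39; ok v59 && (
  let v60 := add v58 v59; ok v60 && (
  let v61 := cst ⟨1046090368, 0, 0, 0⟩; ok v61 && (
  let v62 := add v60 v61; ok v62 && (
  let v63 := scale ⟨143228864, 0, 0, 0⟩ v36; ok v63 && (
  let v64 := scale ⟨0, 246099072, 0, 0⟩ v37; ok v64 && (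
  let v65 := add v63 v64; ok v65 && (
  let v66 := scale ⟨0, 45705931904, 0, 0⟩ v34; ok v66 && (
  let v67 := add v65 v66; ok v67 && (
  let v68 := cst ⟨0, 6515904, 0, 0⟩; ok v68 && (
  let v69 := add v67 v68; ok v69 && (
  let v70 := scale ⟨0, 5331200, 0, 0⟩ v36; ok v70 && (
  let v71 := scale ⟨2420987136, 0, 0, 0⟩ v34; ok v71 && (
  let v72 := add v70 v71; ok v72 && (
  let v73 := cst ⟨0, 8831808, 0, 0⟩; ok v73 && (
  let v74 := add v72 v73; ok v74 && (
  let v75 := scale ⟨0, 338432, 0, 0⟩ v36; ok v75 && (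
  let v76 := cst ⟨2241216, 0, 0, 0⟩; ok v76 && (
  let v77 := add v75 v76; ok v77 && (
  let v78 := scale ⟨0, 0, 1099511627776, 0⟩ x2; ok v78 && (
  let v79 := scale ⟨549755813888, 0, 0, 0⟩ v78; ok v79 && (
  let v80 := add v79 v0; ok v80 && (
  let v81 := inv v80; ok v81 && (
  let v82 := mul v78 v81; ok v82 && (
  let v83 := scale ⟨0, 23325590959680, 0, 0⟩ v82; ok v83 && (
  let v84 := cst ⟨39100974011264, 0, 0, 0⟩; ok v84 && (
  let v85 := add v83 v84; ok v85 && (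
  let v86 := mul v82 v85; ok v86 && (
  let v87 := cst ⟨0, 55556734491776, 0, 0⟩; ok v87 && (
  let v88 := add v86 v87; ok v88 && (
  let v89 := mul v82 v88; ok v89 && (
  let v90 := cst ⟨44844150310528, 0, 0, 0⟩; ok v90 && (
  let v91 := add v89 v90; ok v91 && (
  let v92 := mul v82 v91; ok v92 && (
  let v93 := cst ⟨0, 29379331501504, 0, 0⟩; ok v93 && (
  let v94 := add v92 v93; ok v94 && (
  let v95 := mul v82 v94; ok v95 && (
  let v96 := cst ⟨12306001486336, 0, 0, 0⟩; ok v96 && (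
  let v97 := add v95 v96; ok v97 && (
  let v98 := mul v82 v97; ok v98 && (
  let v99 := scale ⟨0, 231958503296, 0, 0⟩ v36; ok v99 && (
  let v100 := scale ⟨0, 39867433827136, 0, 0⟩ v34; ok v100 && (
  let v101 := add v99 v100; ok v101 && (
  let v102 := cst ⟨0, 4194173167552, 0, 0⟩; ok v102 && (
  let v103 := add v101 v102; ok v103 && (
  let v104 := add v98 v103; ok v104 && (
  let v105 := mul v82 v104; ok v105 && (
  let v106 := scale ⟨0, 314362621568, 0, 0⟩ v36; ok v106 && (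
  let v107 := scale ⟨0, 17831066888128, 0, 0⟩ v34; ok v107 && (
  let v108 := add v106 v107; ok v108 && (
  let v109 := cst ⟨1399167112384, 0, 0, 0⟩; ok v109 && (
  let v110 := add v108 v109; ok v110 && (
  let v111 := add v105 v110; ok v111 && (
  let v112 := mul v82 v111; ok v112 && (
  let v113 := scale ⟨638571246912, 0, 0, 0⟩ v36; ok v113 && (
  let v114 := scale ⟨17718828819904, 0, 0, 0⟩ v34; ok v114 && (
  let v115 := add v113 v114; ok v115 && (
  let v116 := cst ⟨72265417472, 0, 0, 0⟩; ok v116 && (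
  let v117 := add v115 v116; ok v117 && (
  let v118 := add v112 v117; ok v118 && (
  let v119 := mul v82 v118; ok v119 && (
  let v120 := scale ⟨0, 412171765696, 0, 0⟩ v36; ok v120 && (
  let v121 := scale ⟨0, 31983094866112, 0, 0⟩ v34; ok v121 && (
  let v122 := add v120 v121; ok v122 && (
  let v123 := cst ⟨386144415488, 0, 0, 0⟩; ok v123 && (
  let v124 := add v122 v123; ok v124 && (
  let v125 := add v119 v124; ok v125 && (
  let v126 := mul v82 v125; ok v126 && (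
  let v127 := scale ⟨0, 59284299328, 0, 0⟩ v36; ok v127 && (
  let v128 := scale ⟨0, 16213791884480, 0, 0⟩ v34; ok v128 && (
  let v129 := add v127 v128; ok v129 && (
  let v130 := cst ⟨1507403372032, 0, 0, 0⟩; ok v130 && (
  let v131 := add v129 v130; ok v131 && (
  let v132 := add v126 v131; ok v132 && (
  let v133 := mul v82 v132; ok v133 && (
  let v134 := scale ⟨139994767552, 0, 0, 0⟩ v36; ok v134 && (
  let v135 := scale ⟨5274629240640, 0, 0, 0⟩ v34; ok v135 && (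
  let v136 := add v134 v135; ok v136 && (
  let v137 := cst ⟨3557928230016, 0, 0, 0⟩; ok v137 && (
  let v138 := add v136 v137; ok v138 && (
  let v139 := add v133 v138; ok v139 && (
  let v140 := mul v82 v139; ok v140 && (
  let v141 := scale ⟨86017702976, 0, 0, 0⟩ v36; ok v141 && (
  let v142 := scale ⟨5432820352, 0, 0, 0⟩ v37; ok v142 && (
  let v143 := add v141 v142; ok v143 && (
  let v144 := scale ⟨6799371285312, 0, 0, 0⟩ v34; ok v144 && (
  let v145 := add v143 v144; ok v145 && (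
  let v146 := scale ⟨5043486583040, 0, 0, 0⟩ v39; ok v146 && (
  let v147 := add v145 v146; ok v147 && (
  let v148 := scale ⟨13271688248128, 0, 0, 0⟩ v40; ok v148 && (
  let v149 := add v147 v148; ok v149 && (
  let v150 := cst ⟨122753118592, 0, 0, 0⟩; ok v150 && (
  let v151 := add v149 v150; ok v151 && (
  let v152 := mul v151 x1; ok v152 && (
  let v153 := add v140 v152; ok v153 && (
  let v154 := mul x0 x0; ok v154 && (
  let v155 := scale ⟨5703716569088, 0, 0, 0⟩ v154; ok v155 && (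
  let v156 := cst ⟨1726576852992, 0, 0, 0⟩; ok v156 && (
  let v157 := add v155 v156; ok v157 && (
  let v158 := scale ⟨4398046511104, 0, 0, 0⟩ x1; ok v158 && (
  let v159 := mul v82 v157; ok v159 && (
  let v160 := scale ⟨4398046511104, 0, 0, 0⟩ v159; ok v160 && (
  let v161 := add v158 v160; ok v161 && (
  let v162 := cst ⟨332492308480, 0, 0, 0⟩; ok v162 && (
  let v163 := mul v162 v161; ok v163 && (
  let v164 := scale ⟨879662989312, 0, 0, 0⟩ v161; ok v164 && (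
  let v165 := add v164 v0; ok v165 && (
  isPos 3 v165 && (
  let v166 := inv v165; ok v166 && (
  let v167 := mul v163 v166; ok v167 && (
  let v168 := neg v153; ok v168 && (
  let v169 := exp v168; ok v169 && (
  let v170 := add v169 v0; ok v170 && (
  isPos 3 v170 && (
  let v171 := log v170; ok v171 && (
  let v172 := mul v167 x3; ok v172 && (
  let v173 := sub v0 v172; ok v173 && (
  isPos 3 v173 && (
  let v174 := log v173; ok v174 && (
  let v175 := mul v169 v172; ok v175 && (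
  let v176 := add v175 v0; ok v176 && (
  isPos 3 v176 && (
  let v177 := log v176; ok v177 && (
  let v178 := sub v171 v177; ok v178 && (
  let v179 := add x1 v32; ok v179 && (
  let v180 := sub v178 v179; ok v180 && (
  let v181 := mul v180 x0; ok v181 && (
  let v182 := exp v181; ok v182 && (
  let v183 := sub v177 v174; ok v183 && (
  let v184 := add v183 v153; ok v184 && (
  let v185 := mul v184 x0; ok v185 && (
  let v186 := exp v185; ok v186 && (
  let v187 := mul v21 v21; ok v187 && (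
  let v188 := scale ⟨274877906944, 0, 0, 0⟩ v187; ok v188 && (
  let v189 := mul v154 v188; ok v189 && (
  let v190 := scale ⟨1649267441664, 0, 0, 0⟩ v189; ok v190 && (
  let v191 := add v190 v0; ok v191 && (
  let v192 := mul v157 v191; ok v192 && (
  let v193 := mul x2 v192; ok v193 && (
  let v194 := scale ⟨0, 0, 1099511627776, 0⟩ v193; ok v194 && (
  let v195 := mul v194 v194; ok v195 && (
  let v196 := sub v188 v195; ok v196 && (
  let v197 := mul v182 v182; ok v197 && (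
  let v198 := mul v197 v196; ok v198 && (
  let v199 := mul v154 v198; ok v199 && (
  let v200 := scale ⟨4398046511104, 0, 0, 0⟩ v199; ok v200 && (
  let v201 := sub v0 v200; ok v201 && (
  isPos 3 v201 && (
  let v202 := log v201; ok v202 && (
  let v203 := scale ⟨549755813888, 0, 0, 0⟩ v202; ok v203 && (
  let v204 := exp v203; ok v204 && (
  let v205 := mul x0 v197; ok v205 && (
  let v206 := mul v188 v186; ok v206 && (
  let v207 := scale ⟨2199023255552, 0, 0, 0⟩ v196; ok v207 && (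
  let v208 := add v206 v207; ok v208 && (
  let v209 := mul v205 v208; ok v209 && (
  let v210 := mul v194 v204; ok v210 && (
  let v211 := mul v182 v210; ok v211 && (
  let v212 := add v209 v211; ok v212 && (
  let v213 := mul v186 v212; ok v213 && (
  let v214 := scale ⟨4398046511104, 0, 0, 0⟩ v213; ok v214 && (
  let v215 := mul x0 v214; ok v215 && (
  let v216 := add v215 v0; ok v216 && (
  isPos 3 v216 && (
  let v217 := log v216; ok v217 && (
  let v218 := scale ⟨549755813888, 0, 0, 0⟩ v217; ok v218 && (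
  let v219 := exp v218; ok v219 && (
  let v220 := add v219 v0; ok v220 && (
  isPos 3 v220 && (
  let v221 := inv v220; ok v221 && (
  let v222 := mul v214 v221; ok v222 && (
  let v223 := scale ⟨549755813888, 0, 0, 0⟩ v26; ok v223 && (
  let v224 := sub v222 v223; ok v224 && (
  let v225 := cst ⟨9351217545216, 0, 0, 0⟩; ok v225 && (
  let v226 := add v27 v225; ok v226 && (
  isPos 3 v226 && (
  let v227 := mul v224 v224; ok v227 && (
  let v228 := sub v227 v27; ok v228 && (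
  let v229 := inv v226; ok v229 && (
  let v230 := mul v228 v229; ok v230 && (
  isLt v230 1099510579200 && (
  let v231 := mul x0 v182; ok v231 && (
  let v232 := mul v231 v194; ok v232 && (
  let v233 := scale ⟨2199023255552, 0, 0, 0⟩ v232; ok v233 && (
  let v234 := sub v204 v233; ok v234 && (
  isPos 3 v234 && (
  let v235 := add v3 v5; ok v235 && (
  let v236 := mul v194 v235; ok v236 && (
  let v237 := mul x0 v236; ok v237 && (
  let v238 := add v237 v10; ok v238 && (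
  isPos 3 v238 && (
  let v239 := inv v238; ok v239 && (
  let v240 := mul v10 v236; ok v240 && (
  let v241 := add v240 v28; ok v241 && (
  let v242 := mul v239 v241; ok v242 && (
  isPos 3 x0 && (
  let v243 := inv x0; ok v243 && (
  let v244 := sub v224 v242; ok v244 && (
  let v245 := mul v244 v243; ok v245 && (
  let v246 := add v236 v24; ok v246 && (
  let v247 := mul v7 v238; ok v247 && (
  let v248 := inv v246; ok v248 && (
  let v249 := mul v247 v248; ok v249 && (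
  let v250 := mul v249 v245; ok v250 && (
  let v251 := mul x0 v250; ok v251 && (
  let v252 := add v251 v0; ok v252 && (
  let v253 := scale ⟨0, 292462723072, 0, 0⟩ v36; ok v253 && (
  let v254 := scale ⟨0, 3659988992, 0, 0⟩ v37; ok v254 && (
  let v255 := add v253 v254; ok v255 && (
  let v256 := scale ⟨91393425408, 0, 0, 0⟩ v38; ok v256 && (
  let v257 := add v255 v256; ok v257 && (
  let v258 := scale ⟨0, 14341765201920, 0, 0⟩ v34; ok v258 && (
  let v259 := add v257 v258; ok v259 && (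
  let v260 := scale ⟨0, 968295448576, 0, 0⟩ v39; ok v260 && (
  let v261 := add v259 v260; ok v261 && (
  let v262 := cst ⟨1058446180352, 0, 0, 0⟩; ok v262 && (
  let v263 := add v261 v262; ok v263 && (
  let v264 := scale ⟨2199023255552, 0, 0, 0⟩ v250; ok v264 && (
  let v265 := inv v252; ok v265 && (
  let v266 := mul v249 v265; ok v266 && (
  let v267 := mul v264 v266; ok v267 && (
  let v268 := mul v6 v6; ok v268 && (
  let v269 := inv v263; ok v269 && (
  let v270 := mul v268 v269; ok v270 && (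
  let v271 := mul v267 v270; ok v271 && (
  isLt v271 1099510579200 && (
  let v272 := mul x0 v224; ok v272 && (
  let v273 := add v272 v10; ok v273 && (
  isPos 3 v273 && (
  let v274 := inv v273; ok v274 && (
  let v275 := mul v7 v274; ok v275 && (
  let v276 := sub v224 v24; ok v276 && (
  let v277 := add v7 v274; ok v277 && (
  let v278 := mul v276 v277; ok v278 && (
  let v279 := mul v275 v278; ok v279 && (
  let v280 := mul v7 v24; ok v280 && (
  let v281 := scale ⟨2199023255552, 0, 0, 0⟩ v280; ok v281 && (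
  let v282 := add v279 v281; ok v282 && (
  let v283 := scale ⟨0, 39771397160960, 0, 0⟩ v34; ok v283 && (
  let v284 := cst ⟨0, 1468610379776, 0, 0⟩; ok v284 && (
  let v285 := add v283 v284; ok v285 && (
  let v286 := sub v282 v285; ok v286 && (
  isPos 3 v286 && (
  let v287 := inv v286; ok v287 && (
  let v288 := scale ⟨31362867265536, 0, 0, 0⟩ v287; ok v288 && (
  let v289 := add v286 v288; ok v289 && (
  isPos 3 v289 && (
  let v290 := inv v289; ok v290 && (
  let v291 := scale ⟨0, 96718763392, 0, 0⟩ v36; ok v291 && (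
  let v292 := scale ⟨0, 2966141020928, 0, 0⟩ v34; ok v292 && (
  let v293 := add v291 v292; ok v293 && (
  let v294 := cst ⟨0, 25741162368, 0, 0⟩; ok v294 && (
  let v295 := add v293 v294; ok v295 && (
  let v296 := scale ⟨0, 228623102912, 0, 0⟩ v36; ok v296 && (
  let v297 := scale ⟨63335249955008, 0, 0, 0⟩ v34; ok v297 && (
  let v298 := add v296 v297; ok v298 && (
  let v299 := cst ⟨789029931200, 0, 0, 0⟩; ok v299 && (
  let v300 := add v298 v299; ok v300 && (
  let v301 := mul v287 v300; ok v301 && (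
  let v302 := add v295 v301; ok v302 && (
  let v303 := mul v302 v290; ok v303 && (
  let v304 := scale ⟨8128, 0, 0, 0⟩ v282; ok v304 && (
  let v305 := cst ⟨0, 193024, 0, 0⟩; ok v305 && (
  let v306 := add v304 v305; ok v306 && (
  let v307 := mul v282 v306; ok v307 && (
  let v308 := add v307 v77; ok v308 && (
  let v309 := mul v282 v308; ok v309 && (
  let v310 := add v309 v74; ok v310 && (
  let v311 := mul v282 v310; ok v311 && (
  let v312 := add v311 v69; ok v312 && (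
  let v313 := mul v282 v312; ok v313 && (
  let v314 := add v313 v62; ok v314 && (
  let v315 := mul v282 v314; ok v315 && (
  let v316 := add v303 v53; ok v316 && (
  let v317 := add v315 v316; ok v317 && (
  let v318 := mul v279 v317; ok v318 && (
  let v319 := add v318 v11; ok v319 && (
  let v320 := neg v319; ok v320 && (
  let v321 := exp v320; ok v321 && (
  let v322 := add v321 v0; ok v322 && (
  isPos 3 v322 && (
  let v323 := log v322; ok v323 && (
  let v324 := add v153 v171; ok v324 && (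
  let v325 := sub v324 v323; ok v325 && (
  let v326 := scale ⟨549755813888, 0, 0, 0⟩ v217; ok v326 && (
  let v327 := mul v326 v243; ok v327 && (
  let v328 := sub v325 v327; ok v328 && (
  let v329 := exp v328; ok v329 && (
  let v330 := scale ⟨214485762048, 0, 0, 0⟩ v82; ok v330 && (
  let v331 := cst ⟨0, 244647460864, 0, 0⟩; ok v331 && (
  let v332 := add v330 v331; ok v332 && (
  let v333 := mul v82 v332; ok v333 && (
  let v334 := cst ⟨168512716800, 0, 0, 0⟩; ok v334 && (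
  let v335 := add v333 v334; ok v335 && (
  let v336 := mul v82 v335; ok v336 && (
  let v337 := scale ⟨0, 61078175744, 0, 0⟩ v36; ok v337 && (
  let v338 := scale ⟨493571866624, 0, 0, 0⟩ v34; ok v338 && (
  let v339 := add v337 v338; ok v339 && (
  let v340 := cst ⟨12967084032, 0, 0, 0⟩; ok v340 && (
  let v341 := add v339 v340; ok v341 && (
  let v342 := add v336 v341; ok v342 && (
  let v343 := mul v82 v342; ok v343 && (
  let v344 := scale ⟨30521688064, 0, 0, 0⟩ v36; ok v344 && (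
  let v345 := scale ⟨5018140999680, 0, 0, 0⟩ v34; ok v345 && (
  let v346 := add v344 v345; ok v346 && (
  let v347 := cst ⟨61236641792, 0, 0, 0⟩; ok v347 && (
  let v348 := add v346 v347; ok v348 && (
  let v349 := add v343 v348; ok v349 && (
  let v350 := mul v82 v349; ok v350 && (
  let v351 := scale ⟨0, 11534336, 0, 0⟩ v36; ok v351 && (
  let v352 := scale ⟨3196256256, 0, 0, 0⟩ v37; ok v352 && (
  let v353 := add v351 v352; ok v353 && (
  let v354 := scale ⟨0, 100316676096, 0, 0⟩ v34; ok v354 && (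
  let v355 := add v353 v354; ok v355 && (
  let v356 := scale ⟨1322457300992, 0, 0, 0⟩ v39; ok v356 && (
  let v357 := add v355 v356; ok v357 && (
  let v358 := scale ⟨40904732508160, 0, 0, 0⟩ v40; ok v358 && (
  let v359 := add v357 v358; ok v359 && (
  let v360 := cst ⟨1099421319168, 0, 0, 0⟩; ok v360 && (
  let v361 := add v359 v360; ok v361 && (
  let v362 := add v350 v361; ok v362 && (
  let v363 := inv v163; ok v363 && (
  let v364 := mul v363 v165; ok v364 && (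
  let v365 := scale ⟨879662989312, 0, 0, 0⟩ v224; ok v365 && (
  let v366 := add v365 v0; ok v366 && (
  isPos 3 v366 && (
  let v367 := cst ⟨65311014912, 0, 0, 0⟩; ok v367 && (
  let v368 := scale ⟨2199023255552, 0, 0, 0⟩ v367; ok v368 && (
  let v369 := add v224 v24; ok v369 && (
  let v370 := mul v368 v369; ok v370 && (
  let v371 := inv v366; ok v371 && (
  let v372 := mul v370 v371; ok v372 && (
  let v373 := cst ⟨0, 0, 0, 0⟩; ok v373 && (
  let v374 := mul v362 v329; ok v374 && (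
  let v375 := mul v374 v321; ok v375 && (
  let v376 := mul v372 v364; ok v376 && (
  let v377 := mul v375 v376; ok v377 && (
  let v378 := rball v373 v377; ok v378 && (
  let v379 := sub v0 v362; ok v379 && (
  let v380 := mul x3 v379; ok v380 && (
  let v381 := sub v0 v329; ok v381 && (
  let v382 := mul v381 v364; ok v382 && (
  let v383 := mul v362 v382; ok v383 && (
  let v384 := add v380 v383; ok v384 && (
  let v385 := add v384 v378; ok v385 && (
  isLt v385 1099510579200 && (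
  true)))))))))))))))))))))))))))))))))))))))))))))))))))))))))))))))))))))))))))))))))))))))))))))))))))))))))))))))))))))))))))))))))))))))))))))))))))))))))))))))))))))))))))))))))))))))))))))))))))))))))))))))))))))))))))))))))))))))))))))))))))))))))))))))))))))))))))))))))))))))))))))))))))))))))))))))))))))))))))))))))))))))))))))))))))))))))))))))))))))))))))))))))))))))))))))))))))))))))))))))))))))))
  | _ => false

set_option maxRecDepth 1000000 in
theorem c_Z_0_eq (X : XOps) (m : List X.O.α)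
    (h : c_Z_0 X.O.cst X.O.add X.O.sub X.O.mul X.O.scale X.O.neg X.O.inv X.O.exp X.O.log X.O.ok
      X.O.isPos X.O.isLt X.ball X.rball m = true) :
    runX X 3 p_Z_0 m = true := by
  match m, h with
  | [x0, x1, x2, x3], h => exact h

abbrev gZ : List (List Op) := [p_Z_0]

noncomputable abbrev kZ : List (List xE.O.α → Bool) := [c_Z_0 xE.O.cst xE.O.add xE.O.sub xE.O.mul xE.O.scale xE.O.neg xE.O.inv xE.O.exp xE.O.log xE.O.ok
      xE.O.isPos xE.O.isLt xE.ball xE.rball]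

theorem kZ_eq : List.Forall₂ (fun (ops : List Op) (chk : List xE.O.α → Bool) =>
    ∀ m, chk m = true → runX xE 3 ops m = true) gZ kZ :=
  List.Forall₂.cons (c_Z_0_eq xE) List.Forall₂.nil

theorem gZ_eq : gZ = [comp (PS0 tab) ρ4 4] := by decide +kernel

def p_T_0 : List Op := [
  .const ⟨1099511627776, 0, 0, 0⟩,
  .mul 1 2,
  .scale ⟨2199023255552, 0, 0, 0⟩ 0,
  .exp 1,
  .neg 2,
  .exp 0,
  .mul 2 2,
  .mul 1 1,
  .mul 0 0,
  .add 2 1,
  .scale ⟨549755813888, 0, 0, 0⟩ 0,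
  .scale ⟨2199023255552, 0, 0, 0⟩ 12,
  .mul 10 10,
  .lt 0 68719476736,
  .scale ⟨9162596898, 0, 0, 0⟩ 0,
  .const ⟨183251937962, 0, 0, 0⟩,
  .add 1 0,
  .mul 0 3,
  .const ⟨1099511627776, 0, 0, 0⟩,
  .add 1 0,
  .const ⟨65536, 0, 0, 0⟩,
  .rball 1 0,
  .mul 9 0,
  .add 18 16,
  .scale ⟨549755813888, 0, 0, 0⟩ 0,
  .mul 2 0,
  .mul 3 3,
  .mul 26 0,
  .mul 2 2,
  .mul 28 0,
  .neg 17,
  .exp 0,
  .add 0 30,
  .pos 0,
  .log 0,
  .const ⟨20300431360, 0, 0, 0⟩,
  .sub 34 0,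
  .const ⟨1649267441664, 0, 0, 0⟩,
  .sub 37 0,
  .mul 0 0,
  .mul 0 1,
  .mul 4 2,
  .mul 5 5,
  .const ⟨882884214784, 0, 0, 0⟩,
  .scale ⟨0, 0, 1099511627776, 0⟩ 0,
  .scale ⟨549755813888, 0, 0, 0⟩ 0,
  .add 0 43,
  .inv 0,
  .mul 3 0,
  .scale ⟨0, 23325590959680, 0, 0⟩ 0,
  .const ⟨39100974011264, 0, 0, 0⟩,
  .add 1 0,
  .mul 3 0,
  .const ⟨0, 55556734491776, 0, 0⟩,
  .add 1 0,
  .mul 6 0,
  .const ⟨44844150310528, 0, 0, 0⟩,
  .add 1 0,
  .mul 9 0,
  .const ⟨0, 29379331501504, 0, 0⟩,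
  .add 1 0,
  .mul 12 0,
  .const ⟨12306001486336, 0, 0, 0⟩,
  .add 1 0,
  .mul 15 0,
  .scale ⟨0, 231958503296, 0, 0⟩ 26,
  .scale ⟨0, 39867433827136, 0, 0⟩ 29,
  .add 1 0,
  .const ⟨0, 4194173167552, 0, 0⟩,
  .add 1 0,
  .add 5 0,
  .mul 22 0,
  .scale ⟨0, 314362621568, 0, 0⟩ 33,
  .scale ⟨0, 17831066888128, 0, 0⟩ 36,
  .add 1 0,
  .const ⟨1399167112384, 0, 0, 0⟩,
  .add 1 0,
  .add 5 0,
  .mul 29 0,
  .scale ⟨638571246912, 0, 0, 0⟩ 40,
  .scale ⟨17718828819904, 0, 0, 0⟩ 43,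
  .add 1 0,
  .const ⟨72265417472, 0, 0, 0⟩,
  .add 1 0,
  .add 5 0,
  .mul 36 0,
  .scale ⟨0, 412171765696, 0, 0⟩ 47,
  .scale ⟨0, 31983094866112, 0, 0⟩ 50,
  .add 1 0,
  .const ⟨386144415488, 0, 0, 0⟩,
  .add 1 0,
  .add 5 0,
  .mul 43 0,
  .scale ⟨0, 59284299328, 0, 0⟩ 54,
  .scale ⟨0, 16213791884480, 0, 0⟩ 57,
  .add 1 0,
  .const ⟨1507403372032, 0, 0, 0⟩,
  .add 1 0,
  .add 5 0,
  .mul 50 0,
  .scale ⟨139994767552, 0, 0, 0⟩ 61,
  .scale ⟨5274629240640, 0, 0, 0⟩ 64,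
  .add 1 0,
  .const ⟨3557928230016, 0, 0, 0⟩,
  .add 1 0,
  .add 5 0,
  .mul 57 0,
  .scale ⟨86017702976, 0, 0, 0⟩ 68,
  .scale ⟨5432820352, 0, 0, 0⟩ 68,
  .add 1 0,
  .scale ⟨6799371285312, 0, 0, 0⟩ 73,
  .add 1 0,
  .scale ⟨5043486583040, 0, 0, 0⟩ 70,
  .add 1 0,
  .scale ⟨13271688248128, 0, 0, 0⟩ 71,
  .add 1 0,
  .const ⟨122753118592, 0, 0, 0⟩,
  .add 1 0,
  .mul 0 117,
  .add 12 0,
  .mul 118 118,
  .scale ⟨5703716569088, 0, 0, 0⟩ 0,
  .const ⟨1726576852992, 0, 0, 0⟩,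
  .add 1 0,
  .scale ⟨4398046511104, 0, 0, 0⟩ 123,
  .mul 76 1,
  .scale ⟨4398046511104, 0, 0, 0⟩ 0,
  .add 2 0,
  .const ⟨332492308480, 0, 0, 0⟩,
  .mul 0 1,
  .scale ⟨879662989312, 0, 0, 0⟩ 2,
  .add 0 128,
  .pos 0,
  .inv 0,
  .mul 3 0,
  .neg 14,
  .exp 0,
  .add 0 133,
  .pos 0,
  .log 0,
  .mul 4 138,
  .sub 136 0,
  .pos 0,
  .log 0,
  .mul 5 2,
  .add 0 139,
  .pos 0,
  .log 0,
  .sub 6 0,
  .add 144 110,
  .sub 1 0,
  .mul 0 145,
  .exp 0,
  .sub 5 8,
  .add 0 30,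
  .mul 0 149,
  .exp 0,
  .mul 129 129,
  .scale ⟨274877906944, 0, 0, 0⟩ 0,
  .mul 34 0,
  .scale ⟨1649267441664, 0, 0, 0⟩ 0,
  .add 0 154,
  .mul 34 0,
  .mul 115 0,
  .scale ⟨0, 0, 1099511627776, 0⟩ 0,
  .mul 0 0,
  .sub 7 0,
  .mul 14 14,
  .mul 0 1,
  .mul 44 0,
  .scale ⟨4398046511104, 0, 0, 0⟩ 0,
  .sub 164 0,
  .pos 0,
  .log 0,
  .scale ⟨549755813888, 0, 0, 0⟩ 0,
  .exp 0,
  .mul 169 22,
  .mul 0 11,
  .scale ⟨2199023255552, 0, 0, 0⟩ 0,
  .sub 3 0,
  .pos 0,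
  .pos 173,
  .inv 173,
  .const ⟨549755813888, 0, 0, 0⟩,
  .sub 33 39,
  .log 3,
  .mul 0 3,
  .add 2 0,
  .exp 0,
  .sub 5 0,
  .pos 0]

set_option maxRecDepth 1000000 in
noncomputable def c_T_0 {α : Type} (cst : Z → α) (add sub mul : α → α → α) (scale : Z → α → α)
    (neg inv exp log : α → α) (ok : α → Bool) (isPos : Nat → α → Bool) (isLt : α → Nat → Bool)
    (ball : Nat → α → α) (rball : α → α → α) : List α → Bool
  | [x0, x1, x2] =>
  let v0 := cst ⟨1099511627776, 0, 0, 0⟩; ok v0 && (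
  let v1 := mul x0 x1; ok v1 && (
  let v2 := scale ⟨2199023255552, 0, 0, 0⟩ v1; ok v2 && (
  let v3 := exp v1; ok v3 && (
  let v4 := neg v1; ok v4 && (
  let v5 := exp v4; ok v5 && (
  let v6 := mul v3 v3; ok v6 && (
  let v7 := mul v5 v5; ok v7 && (
  let v8 := mul v7 v7; ok v8 && (
  let v9 := add v6 v7; ok v9 && (
  let v10 := scale ⟨549755813888, 0, 0, 0⟩ v9; ok v10 && (
  let v11 := scale ⟨2199023255552, 0, 0, 0⟩ x1; ok v11 && (
  let v12 := mul v1 v1; ok v12 && (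
  isLt v12 68719476736 && (
  let v13 := scale ⟨9162596898, 0, 0, 0⟩ v12; ok v13 && (
  let v14 := cst ⟨183251937962, 0, 0, 0⟩; ok v14 && (
  let v15 := add v13 v14; ok v15 && (
  let v16 := mul v15 v12; ok v16 && (
  let v17 := cst ⟨1099511627776, 0, 0, 0⟩; ok v17 && (
  let v18 := add v16 v17; ok v18 && (
  let v19 := cst ⟨65536, 0, 0, 0⟩; ok v19 && (
  let v20 := rball v18 v19; ok v20 && (
  let v21 := mul v11 v20; ok v21 && (
  let v22 := add v3 v5; ok v22 && (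
  let v23 := scale ⟨549755813888, 0, 0, 0⟩ v22; ok v23 && (
  let v24 := mul v21 v23; ok v24 && (
  let v25 := mul v21 v21; ok v25 && (
  let v26 := mul x0 v25; ok v26 && (
  let v27 := mul v24 v24; ok v27 && (
  let v28 := mul x0 v27; ok v28 && (
  let v29 := neg v11; ok v29 && (
  let v30 := exp v29; ok v30 && (
  let v31 := add v30 v0; ok v31 && (
  isPos 2 v31 && (
  let v32 := log v31; ok v32 && (
  let v33 := cst ⟨20300431360, 0, 0, 0⟩; ok v33 && (
  let v34 := sub x0 v33; ok v34 && (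
  let v35 := cst ⟨1649267441664, 0, 0, 0⟩; ok v35 && (
  let v36 := sub x1 v35; ok v36 && (
  let v37 := mul v36 v36; ok v37 && (
  let v38 := mul v37 v36; ok v38 && (
  let v39 := mul v34 v36; ok v39 && (
  let v40 := mul v34 v34; ok v40 && (
  let v41 := cst ⟨882884214784, 0, 0, 0⟩; ok v41 && (
  let v42 := scale ⟨0, 0, 1099511627776, 0⟩ v41; ok v42 && (
  let v43 := scale ⟨549755813888, 0, 0, 0⟩ v42; ok v43 && (
  let v44 := add v43 v0; ok v44 && (
  let v45 := inv v44; ok v45 && (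
  let v46 := mul v42 v45; ok v46 && (
  let v47 := scale ⟨0, 23325590959680, 0, 0⟩ v46; ok v47 && (
  let v48 := cst ⟨39100974011264, 0, 0, 0⟩; ok v48 && (
  let v49 := add v47 v48; ok v49 && (
  let v50 := mul v46 v49; ok v50 && (
  let v51 := cst ⟨0, 55556734491776, 0, 0⟩; ok v51 && (
  let v52 := add v50 v51; ok v52 && (
  let v53 := mul v46 v52; ok v53 && (
  let v54 := cst ⟨44844150310528, 0, 0, 0⟩; ok v54 && (
  let v55 := add v53 v54; ok v55 && (
  let v56 := mul v46 v55; ok v56 && (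
  let v57 := cst ⟨0, 29379331501504, 0, 0⟩; ok v57 && (
  let v58 := add v56 v57; ok v58 && (
  let v59 := mul v46 v58; ok v59 && (
  let v60 := cst ⟨12306001486336, 0, 0, 0⟩; ok v60 && (
  let v61 := add v59 v60; ok v61 && (
  let v62 := mul v46 v61; ok v62 && (
  let v63 := scale ⟨0, 231958503296, 0, 0⟩ v36; ok v63 && (
  let v64 := scale ⟨0, 39867433827136, 0, 0⟩ v34; ok v64 && (
  let v65 := add v63 v64; ok v65 && (
  let v66 := cst ⟨0, 4194173167552, 0, 0⟩; ok v66 && (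
  let v67 := add v65 v66; ok v67 && (
  let v68 := add v62 v67; ok v68 && (
  let v69 := mul v46 v68; ok v69 && (
  let v70 := scale ⟨0, 314362621568, 0, 0⟩ v36; ok v70 && (
  let v71 := scale ⟨0, 17831066888128, 0, 0⟩ v34; ok v71 && (
  let v72 := add v70 v71; ok v72 && (
  let v73 := cst ⟨1399167112384, 0, 0, 0⟩; ok v73 && (
  let v74 := add v72 v73; ok v74 && (
  let v75 := add v69 v74; ok v75 && (
  let v76 := mul v46 v75; ok v76 && (
  let v77 := scale ⟨638571246912, 0, 0, 0⟩ v36; ok v77 && (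
  let v78 := scale ⟨17718828819904, 0, 0, 0⟩ v34; ok v78 && (
  let v79 := add v77 v78; ok v79 && (
  let v80 := cst ⟨72265417472, 0, 0, 0⟩; ok v80 && (
  let v81 := add v79 v80; ok v81 && (
  let v82 := add v76 v81; ok v82 && (
  let v83 := mul v46 v82; ok v83 && (
  let v84 := scale ⟨0, 412171765696, 0, 0⟩ v36; ok v84 && (
  let v85 := scale ⟨0, 31983094866112, 0, 0⟩ v34; ok v85 && (
  let v86 := add v84 v85; ok v86 && (
  let v87 := cst ⟨386144415488, 0, 0, 0⟩; ok v87 && (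
  let v88 := add v86 v87; ok v88 && (
  let v89 := add v83 v88; ok v89 && (
  let v90 := mul v46 v89; ok v90 && (
  let v91 := scale ⟨0, 59284299328, 0, 0⟩ v36; ok v91 && (
  let v92 := scale ⟨0, 16213791884480, 0, 0⟩ v34; ok v92 && (
  let v93 := add v91 v92; ok v93 && (
  let v94 := cst ⟨1507403372032, 0, 0, 0⟩; ok v94 && (
  let v95 := add v93 v94; ok v95 && (
  let v96 := add v90 v95; ok v96 && (
  let v97 := mul v46 v96; ok v97 && (
  let v98 := scale ⟨139994767552, 0, 0, 0⟩ v36; ok v98 && (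
  let v99 := scale ⟨5274629240640, 0, 0, 0⟩ v34; ok v99 && (
  let v100 := add v98 v99; ok v100 && (
  let v101 := cst ⟨3557928230016, 0, 0, 0⟩; ok v101 && (
  let v102 := add v100 v101; ok v102 && (
  let v103 := add v97 v102; ok v103 && (
  let v104 := mul v46 v103; ok v104 && (
  let v105 := scale ⟨86017702976, 0, 0, 0⟩ v36; ok v105 && (
  let v106 := scale ⟨5432820352, 0, 0, 0⟩ v37; ok v106 && (
  let v107 := add v105 v106; ok v107 && (
  let v108 := scale ⟨6799371285312, 0, 0, 0⟩ v34; ok v108 && (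
  let v109 := add v107 v108; ok v109 && (
  let v110 := scale ⟨5043486583040, 0, 0, 0⟩ v39; ok v110 && (
  let v111 := add v109 v110; ok v111 && (
  let v112 := scale ⟨13271688248128, 0, 0, 0⟩ v40; ok v112 && (
  let v113 := add v111 v112; ok v113 && (
  let v114 := cst ⟨122753118592, 0, 0, 0⟩; ok v114 && (
  let v115 := add v113 v114; ok v115 && (
  let v116 := mul v115 x1; ok v116 && (
  let v117 := add v104 v116; ok v117 && (
  let v118 := mul x0 x0; ok v118 && (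
  let v119 := scale ⟨5703716569088, 0, 0, 0⟩ v118; ok v119 && (
  let v120 := cst ⟨1726576852992, 0, 0, 0⟩; ok v120 && (
  let v121 := add v119 v120; ok v121 && (
  let v122 := scale ⟨4398046511104, 0, 0, 0⟩ x1; ok v122 && (
  let v123 := mul v46 v121; ok v123 && (
  let v124 := scale ⟨4398046511104, 0, 0, 0⟩ v123; ok v124 && (
  let v125 := add v122 v124; ok v125 && (
  let v126 := cst ⟨332492308480, 0, 0, 0⟩; ok v126 && (
  let v127 := mul v126 v125; ok v127 && (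
  let v128 := scale ⟨879662989312, 0, 0, 0⟩ v125; ok v128 && (
  let v129 := add v128 v0; ok v129 && (
  isPos 2 v129 && (
  let v130 := inv v129; ok v130 && (
  let v131 := mul v127 v130; ok v131 && (
  let v132 := neg v117; ok v132 && (
  let v133 := exp v132; ok v133 && (
  let v134 := add v133 v0; ok v134 && (
  isPos 2 v134 && (
  let v135 := log v134; ok v135 && (
  let v136 := mul v131 x2; ok v136 && (
  let v137 := sub v0 v136; ok v137 && (
  isPos 2 v137 && (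
  let v138 := log v137; ok v138 && (
  let v139 := mul v133 v136; ok v139 && (
  let v140 := add v139 v0; ok v140 && (
  isPos 2 v140 && (
  let v141 := log v140; ok v141 && (
  let v142 := sub v135 v141; ok v142 && (
  let v143 := add x1 v32; ok v143 && (
  let v144 := sub v142 v143; ok v144 && (
  let v145 := mul v144 x0; ok v145 && (
  let v146 := exp v145; ok v146 && (
  let v147 := sub v141 v138; ok v147 && (
  let v148 := add v147 v117; ok v148 && (
  let v149 := mul v148 x0; ok v149 && (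
  let v150 := exp v149; ok v150 && (
  let v151 := mul v21 v21; ok v151 && (
  let v152 := scale ⟨274877906944, 0, 0, 0⟩ v151; ok v152 && (
  let v153 := mul v118 v152; ok v153 && (
  let v154 := scale ⟨1649267441664, 0, 0, 0⟩ v153; ok v154 && (
  let v155 := add v154 v0; ok v155 && (
  let v156 := mul v121 v155; ok v156 && (
  let v157 := mul v41 v156; ok v157 && (
  let v158 := scale ⟨0, 0, 1099511627776, 0⟩ v157; ok v158 && (
  let v159 := mul v158 v158; ok v159 && (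
  let v160 := sub v152 v159; ok v160 && (
  let v161 := mul v146 v146; ok v161 && (
  let v162 := mul v161 v160; ok v162 && (
  let v163 := mul v118 v162; ok v163 && (
  let v164 := scale ⟨4398046511104, 0, 0, 0⟩ v163; ok v164 && (
  let v165 := sub v0 v164; ok v165 && (
  isPos 2 v165 && (
  let v166 := log v165; ok v166 && (
  let v167 := scale ⟨549755813888, 0, 0, 0⟩ v166; ok v167 && (
  let v168 := exp v167; ok v168 && (
  let v169 := mul x0 v146; ok v169 && (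
  let v170 := mul v169 v158; ok v170 && (
  let v171 := scale ⟨2199023255552, 0, 0, 0⟩ v170; ok v171 && (
  let v172 := sub v168 v171; ok v172 && (
  isPos 2 v172 && (
  isPos 2 x0 && (
  let v173 := inv x0; ok v173 && (
  let v174 := cst ⟨549755813888, 0, 0, 0⟩; ok v174 && (
  let v175 := sub v141 v135; ok v175 && (
  let v176 := log v172; ok v176 && (
  let v177 := mul v176 v173; ok v177 && (
  let v178 := add v175 v177; ok v178 && (
  let v179 := exp v178; ok v179 && (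
  let v180 := sub v174 v179; ok v180 && (
  isPos 2 v180 && (
  true)))))))))))))))))))))))))))))))))))))))))))))))))))))))))))))))))))))))))))))))))))))))))))))))))))))))))))))))))))))))))))))))))))))))))))))))))))))))))))))))))))))))))))))))))))))))))))))))
  | _ => false

set_option maxRecDepth 1000000 in
theorem c_T_0_eq (X : XOps) (m : List X.O.α)
    (h : c_T_0 X.O.cst X.O.add X.O.sub X.O.mul X.O.scale X.O.neg X.O.inv X.O.exp X.O.log X.O.ok
      X.O.isPos X.O.isLt X.ball X.rball m = true) :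
    runX X 2 p_T_0 m = true := by
  match m, h with
  | [x0, x1, x2], h => exact h

abbrev gT : List (List Op) := [p_T_0]

noncomputable abbrev kT : List (List xE.O.α → Bool) := [c_T_0 xE.O.cst xE.O.add xE.O.sub xE.O.mul xE.O.scale xE.O.neg xE.O.inv xE.O.exp xE.O.log xE.O.ok
      xE.O.isPos xE.O.isLt xE.ball xE.rball]

theorem kT_eq : List.Forall₂ (fun (ops : List Op) (chk : List xE.O.α → Bool) =>
    ∀ m, chk m = true → runX xE 2 ops m = true) gT kT :=
  List.Forall₂.cons (c_T_0_eq xE) List.Forall₂.nil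

theorem gT_eq : gT = [comp (PST tab 882884214784) ρ3 3] := by decide +kernel

def p_S_0 : List Op := [
  .const ⟨1099511627776, 0, 0, 0⟩,
  .mul 1 2,
  .exp 0,
  .neg 1,
  .exp 0,
  .mul 3 3,
  .lt 0 68719476736,
  .scale ⟨9162596898, 0, 0, 0⟩ 0,
  .const ⟨183251937962, 0, 0, 0⟩,
  .add 1 0,
  .mul 0 3,
  .const ⟨1099511627776, 0, 0, 0⟩,
  .add 1 0,
  .const ⟨65536, 0, 0, 0⟩,
  .rball 1 0,
  .scale ⟨2199023255552, 0, 0, 0⟩ 15,
  .mul 0 1,
  .add 13 11,
  .scale ⟨549755813888, 0, 0, 0⟩ 0,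
  .mul 2 0,
  .mul 0 0,
  .const ⟨20300431360, 0, 0, 0⟩,
  .sub 21 0,
  .const ⟨1649267441664, 0, 0, 0⟩,
  .sub 24 0,
  .mul 0 0,
  .mul 0 1,
  .mul 4 2,
  .scale ⟨0, 292462723072, 0, 0⟩ 3,
  .scale ⟨0, 3659988992, 0, 0⟩ 3,
  .add 1 0,
  .scale ⟨91393425408, 0, 0, 0⟩ 4,
  .add 1 0,
  .scale ⟨0, 14341765201920, 0, 0⟩ 10,
  .add 1 0,
  .scale ⟨0, 968295448576, 0, 0⟩ 7,
  .add 1 0,
  .const ⟨1058446180352, 0, 0, 0⟩,
  .add 1 0,
  .pos 0,
  .const ⟨9351217545216, 0, 0, 0⟩,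
  .add 19 0,
  .pos 0,
  .const ⟨20300431360, 0, 0, 0⟩,
  .sub 41 0,
  .const ⟨1649267441664, 0, 0, 0⟩,
  .sub 44 0,
  .mul 0 0,
  .mul 0 1,
  .mul 4 2,
  .mul 42 42,
  .mul 0 0,
  .scale ⟨4398046511104, 0, 0, 0⟩ 47,
  .neg 0,
  .exp 0,
  .scale ⟨0, 292462723072, 0, 0⟩ 8,
  .scale ⟨0, 3659988992, 0, 0⟩ 8,
  .add 1 0,
  .scale ⟨91393425408, 0, 0, 0⟩ 9,
  .add 1 0,
  .scale ⟨0, 14341765201920, 0, 0⟩ 15,
  .add 1 0,
  .scale ⟨0, 968295448576, 0, 0⟩ 12,
  .add 1 0,
  .const ⟨1058446180352, 0, 0, 0⟩,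
  .add 1 0,
  .mul 63 44,
  .mul 0 1,
  .add 0 64,
  .mul 14 0,
  .scale ⟨2199023255552, 0, 0, 0⟩ 19,
  .mul 5 16,
  .sub 1 0,
  .pos 0,
  .scale ⟨99285139456, 0, 0, 0⟩ 26,
  .scale ⟨0, 6313148416, 0, 0⟩ 26,
  .add 1 0,
  .scale ⟨0, 26226851840, 0, 0⟩ 27,
  .add 1 0,
  .scale ⟨5976251957248, 0, 0, 0⟩ 33,
  .add 1 0,
  .scale ⟨1388441567232, 0, 0, 0⟩ 30,
  .add 1 0,
  .const ⟨382134648832, 0, 0, 0⟩,
  .add 1 0,
  .pos 0,
  .const ⟨12236361826304, 0, 0, 0⟩,
  .add 62 0,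
  .pos 0,
  .const ⟨20300431360, 0, 0, 0⟩,
  .sub 84 0,
  .const ⟨1649267441664, 0, 0, 0⟩,
  .sub 87 0,
  .mul 0 0,
  .mul 0 1,
  .mul 4 2,
  .mul 85 85,
  .mul 0 0,
  .scale ⟨8796093022208, 0, 0, 0⟩ 90,
  .neg 0,
  .exp 0,
  .scale ⟨0, 193177583616, 0, 0⟩ 8,
  .scale ⟨0, 9973137408, 0, 0⟩ 8,
  .add 1 0,
  .scale ⟨65166573568, 0, 0, 0⟩ 9,
  .add 1 0,
  .scale ⟨0, 8365513244672, 0, 0⟩ 15,
  .add 1 0,
  .scale ⟨420146118656, 0, 0, 0⟩ 12,
  .add 1 0,
  .const ⟨1440580829184, 0, 0, 0⟩,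
  .add 1 0,
  .mul 106 87,
  .mul 0 1,
  .add 0 107,
  .mul 14 0,
  .scale ⟨1099511627776, 0, 0, 0⟩ 18,
  .add 0 110,
  .mul 21 0,
  .scale ⟨2199023255552, 0, 0, 0⟩ 0,
  .mul 8 19,
  .sub 1 0,
  .pos 0,
  .scale ⟨95080939520, 0, 0, 0⟩ 29,
  .scale ⟨0, 4426760192, 0, 0⟩ 29,
  .add 1 0,
  .scale ⟨0, 20395130880, 0, 0⟩ 30,
  .add 1 0,
  .scale ⟨5346754035712, 0, 0, 0⟩ 36,
  .add 1 0,
  .scale ⟨1163683561472, 0, 0, 0⟩ 33,
  .add 1 0,
  .const ⟨356821696512, 0, 0, 0⟩,
  .add 1 0,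
  .pos 0,
  .const ⟨15102178754560, 0, 0, 0⟩,
  .add 108 0,
  .pos 0,
  .const ⟨20300431360, 0, 0, 0⟩,
  .sub 130 0,
  .const ⟨1649267441664, 0, 0, 0⟩,
  .sub 133 0,
  .mul 0 0,
  .mul 0 1,
  .mul 4 2,
  .mul 131 131,
  .mul 0 0,
  .scale ⟨13194139533312, 0, 0, 0⟩ 136,
  .neg 0,
  .exp 0,
  .scale ⟨0, 98096644096, 0, 0⟩ 8,
  .scale ⟨0, 14399897600, 0, 0⟩ 8,
  .add 1 0,
  .scale ⟨44771442688, 0, 0, 0⟩ 9,
  .add 1 0,
  .scale ⟨0, 3018759208960, 0, 0⟩ 15,
  .add 1 0,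
  .scale ⟨1583829680128, 0, 0, 0⟩ 12,
  .add 1 0,
  .const ⟨1797402525696, 0, 0, 0⟩,
  .add 1 0,
  .mul 152 133,
  .mul 0 1,
  .add 0 153,
  .mul 14 0,
  .scale ⟨1099511627776, 0, 0, 0⟩ 18,
  .add 0 156,
  .mul 20 0,
  .add 0 158,
  .mul 23 0,
  .scale ⟨2199023255552, 0, 0, 0⟩ 0,
  .mul 10 21,
  .sub 1 0,
  .pos 0,
  .scale ⟨93885890560, 0, 0, 0⟩ 31,
  .scale ⟨826998784, 0, 0, 0⟩ 31,
  .add 1 0,
  .scale ⟨0, 13138788352, 0, 0⟩ 32,
  .add 1 0,
  .scale ⟨5392374693888, 0, 0, 0⟩ 38,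
  .add 1 0,
  .scale ⟨2195692257280, 0, 0, 0⟩ 35,
  .add 1 0,
  .const ⟨359778746368, 0, 0, 0⟩,
  .add 1 0,
  .pos 0,
  .const ⟨17824114278400, 0, 0, 0⟩,
  .add 156 0,
  .pos 0,
  .const ⟨20300431360, 0, 0, 0⟩,
  .sub 178 0,
  .const ⟨1649267441664, 0, 0, 0⟩,
  .sub 181 0,
  .mul 0 0,
  .mul 0 1,
  .mul 4 2,
  .mul 179 179,
  .mul 0 0,
  .scale ⟨17592186044416, 0, 0, 0⟩ 184,
  .neg 0,
  .exp 0,
  .scale ⟨0, 4210753536, 0, 0⟩ 8,
  .scale ⟨0, 13572898816, 0, 0⟩ 8,
  .add 1 0,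
  .scale ⟨31632654336, 0, 0, 0⟩ 9,
  .add 1 0,
  .scale ⟨2373615484928, 0, 0, 0⟩ 15,
  .add 1 0,
  .scale ⟨3779521937408, 0, 0, 0⟩ 12,
  .add 1 0,
  .const ⟨2157181272064, 0, 0, 0⟩,
  .add 1 0,
  .mul 200 181,
  .mul 0 1,
  .add 0 201,
  .mul 14 0,
  .scale ⟨1099511627776, 0, 0, 0⟩ 18,
  .add 0 204,
  .mul 20 0,
  .add 0 206,
  .mul 22 0,
  .add 0 208,
  .mul 25 0,
  .scale ⟨2199023255552, 0, 0, 0⟩ 0,
  .mul 12 23,
  .sub 1 0,
  .pos 0,
  .scale ⟨100049485824, 0, 0, 0⟩ 33,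
  .scale ⟨10987175936, 0, 0, 0⟩ 33,
  .add 1 0,
  .scale ⟨0, 12518621184, 0, 0⟩ 34,
  .add 1 0,
  .scale ⟨6463663374336, 0, 0, 0⟩ 40,
  .add 1 0,
  .scale ⟨3024049864704, 0, 0, 0⟩ 37,
  .add 1 0,
  .const ⟨377050300416, 0, 0, 0⟩,
  .add 1 0,
  .pos 0,
  .const ⟨20250770800640, 0, 0, 0⟩,
  .add 206 0,
  .pos 0,
  .const ⟨20300431360, 0, 0, 0⟩,
  .sub 228 0,
  .const ⟨1649267441664, 0, 0, 0⟩,
  .sub 231 0,
  .mul 0 0,
  .mul 0 1,
  .mul 4 2,
  .mul 229 229,
  .mul 0 0,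
  .scale ⟨21990232555520, 0, 0, 0⟩ 234,
  .neg 0,
  .exp 0,
  .scale ⟨95838732288, 0, 0, 0⟩ 8,
  .scale ⟨0, 2585722880, 0, 0⟩ 8,
  .add 1 0,
  .scale ⟨19114033152, 0, 0, 0⟩ 9,
  .add 1 0,
  .scale ⟨8837278859264, 0, 0, 0⟩ 15,
  .add 1 0,
  .scale ⟨6803571802112, 0, 0, 0⟩ 12,
  .add 1 0,
  .const ⟨2534231572480, 0, 0, 0⟩,
  .add 1 0,
  .mul 250 231,
  .mul 0 1,
  .add 0 251,
  .mul 14 0,
  .scale ⟨1099511627776, 0, 0, 0⟩ 18,
  .add 0 254,
  .mul 20 0,
  .add 0 256,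
  .mul 22 0,
  .add 0 258,
  .mul 24 0,
  .add 0 260,
  .mul 27 0,
  .scale ⟨2199023255552, 0, 0, 0⟩ 0,
  .mul 14 25,
  .sub 1 0,
  .pos 0,
  .mul 266 247,
  .mul 0 17,
  .add 0 267,
  .scale ⟨4837850742784, 0, 0, 0⟩ 267,
  .neg 0,
  .exp 0,
  .mul 3 0,
  .lt 0 1099511627520]

set_option maxRecDepth 1000000 in
noncomputable def c_S_0 {α : Type} (cst : Z → α) (add sub mul : α → α → α) (scale : Z → α → α)
    (neg inv exp log : α → α) (ok : α → Bool) (isPos : Nat → α → Bool) (isLt : α → Nat → Bool)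
    (ball : Nat → α → α) (rball : α → α → α) : List α → Bool
  | [x0, x1] =>
  let v0 := cst ⟨1099511627776, 0, 0, 0⟩; ok v0 && (
  let v1 := mul x0 x1; ok v1 && (
  let v2 := exp v1; ok v2 && (
  let v3 := neg v1; ok v3 && (
  let v4 := exp v3; ok v4 && (
  let v5 := mul v1 v1; ok v5 && (
  isLt v5 68719476736 && (
  let v6 := scale ⟨9162596898, 0, 0, 0⟩ v5; ok v6 && (
  let v7 := cst ⟨183251937962, 0, 0, 0⟩; ok v7 && (
  let v8 := add v6 v7; ok v8 && (
  let v9 := mul v8 v5; ok v9 && (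
  let v10 := cst ⟨1099511627776, 0, 0, 0⟩; ok v10 && (
  let v11 := add v9 v10; ok v11 && (
  let v12 := cst ⟨65536, 0, 0, 0⟩; ok v12 && (
  let v13 := rball v11 v12; ok v13 && (
  let v14 := scale ⟨2199023255552, 0, 0, 0⟩ x1; ok v14 && (
  let v15 := mul v14 v13; ok v15 && (
  let v16 := add v2 v4; ok v16 && (
  let v17 := scale ⟨549755813888, 0, 0, 0⟩ v16; ok v17 && (
  let v18 := mul v15 v17; ok v18 && (
  let v19 := mul v18 v18; ok v19 && (
  let v20 := cst ⟨20300431360, 0, 0, 0⟩; ok v20 && (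
  let v21 := sub x0 v20; ok v21 && (
  let v22 := cst ⟨1649267441664, 0, 0, 0⟩; ok v22 && (
  let v23 := sub x1 v22; ok v23 && (
  let v24 := mul v23 v23; ok v24 && (
  let v25 := mul v24 v23; ok v25 && (
  let v26 := mul v21 v23; ok v26 && (
  let v27 := scale ⟨0, 292462723072, 0, 0⟩ v23; ok v27 && (
  let v28 := scale ⟨0, 3659988992, 0, 0⟩ v24; ok v28 && (
  let v29 := add v27 v28; ok v29 && (
  let v30 := scale ⟨91393425408, 0, 0, 0⟩ v25; ok v30 && (
  let v31 := add v29 v30; ok v31 && (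
  let v32 := scale ⟨0, 14341765201920, 0, 0⟩ v21; ok v32 && (
  let v33 := add v31 v32; ok v33 && (
  let v34 := scale ⟨0, 968295448576, 0, 0⟩ v26; ok v34 && (
  let v35 := add v33 v34; ok v35 && (
  let v36 := cst ⟨1058446180352, 0, 0, 0⟩; ok v36 && (
  let v37 := add v35 v36; ok v37 && (
  isPos 2 v37 && (
  let v38 := cst ⟨9351217545216, 0, 0, 0⟩; ok v38 && (
  let v39 := add v19 v38; ok v39 && (
  isPos 2 v39 && (
  let v40 := cst ⟨20300431360, 0, 0, 0⟩; ok v40 && (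
  let v41 := sub x0 v40; ok v41 && (
  let v42 := cst ⟨1649267441664, 0, 0, 0⟩; ok v42 && (
  let v43 := sub x1 v42; ok v43 && (
  let v44 := mul v43 v43; ok v44 && (
  let v45 := mul v44 v43; ok v45 && (
  let v46 := mul v41 v43; ok v46 && (
  let v47 := mul v4 v4; ok v47 && (
  let v48 := mul v47 v47; ok v48 && (
  let v49 := scale ⟨4398046511104, 0, 0, 0⟩ v1; ok v49 && (
  let v50 := neg v49; ok v50 && (
  let v51 := exp v50; ok v51 && (
  let v52 := scale ⟨0, 292462723072, 0, 0⟩ v43; ok v52 && (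
  let v53 := scale ⟨0, 3659988992, 0, 0⟩ v44; ok v53 && (
  let v54 := add v52 v53; ok v54 && (
  let v55 := scale ⟨91393425408, 0, 0, 0⟩ v45; ok v55 && (
  let v56 := add v54 v55; ok v56 && (
  let v57 := scale ⟨0, 14341765201920, 0, 0⟩ v41; ok v57 && (
  let v58 := add v56 v57; ok v58 && (
  let v59 := scale ⟨0, 968295448576, 0, 0⟩ v46; ok v59 && (
  let v60 := add v58 v59; ok v60 && (
  let v61 := cst ⟨1058446180352, 0, 0, 0⟩; ok v61 && (
  let v62 := add v60 v61; ok v62 && (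
  let v63 := mul x0 v18; ok v63 && (
  let v64 := mul v63 v62; ok v64 && (
  let v65 := add v64 v0; ok v65 && (
  let v66 := mul v51 v65; ok v66 && (
  let v67 := scale ⟨2199023255552, 0, 0, 0⟩ v47; ok v67 && (
  let v68 := mul v62 v51; ok v68 && (
  let v69 := sub v67 v68; ok v69 && (
  isPos 2 v69 && (
  let v70 := scale ⟨99285139456, 0, 0, 0⟩ v43; ok v70 && (
  let v71 := scale ⟨0, 6313148416, 0, 0⟩ v44; ok v71 && (
  let v72 := add v70 v71; ok v72 && (
  let v73 := scale ⟨0, 26226851840, 0, 0⟩ v45; ok v73 && (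
  let v74 := add v72 v73; ok v74 && (
  let v75 := scale ⟨5976251957248, 0, 0, 0⟩ v41; ok v75 && (
  let v76 := add v74 v75; ok v76 && (
  let v77 := scale ⟨1388441567232, 0, 0, 0⟩ v46; ok v77 && (
  let v78 := add v76 v77; ok v78 && (
  let v79 := cst ⟨382134648832, 0, 0, 0⟩; ok v79 && (
  let v80 := add v78 v79; ok v80 && (
  isPos 2 v80 && (
  let v81 := cst ⟨12236361826304, 0, 0, 0⟩; ok v81 && (
  let v82 := add v19 v81; ok v82 && (
  isPos 2 v82 && (
  let v83 := cst ⟨20300431360, 0, 0, 0⟩; ok v83 && (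
  let v84 := sub x0 v83; ok v84 && (
  let v85 := cst ⟨1649267441664, 0, 0, 0⟩; ok v85 && (
  let v86 := sub x1 v85; ok v86 && (
  let v87 := mul v86 v86; ok v87 && (
  let v88 := mul v87 v86; ok v88 && (
  let v89 := mul v84 v86; ok v89 && (
  let v90 := mul v4 v4; ok v90 && (
  let v91 := mul v90 v90; ok v91 && (
  let v92 := scale ⟨8796093022208, 0, 0, 0⟩ v1; ok v92 && (
  let v93 := neg v92; ok v93 && (
  let v94 := exp v93; ok v94 && (
  let v95 := scale ⟨0, 193177583616, 0, 0⟩ v86; ok v95 && (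
  let v96 := scale ⟨0, 9973137408, 0, 0⟩ v87; ok v96 && (
  let v97 := add v95 v96; ok v97 && (
  let v98 := scale ⟨65166573568, 0, 0, 0⟩ v88; ok v98 && (
  let v99 := add v97 v98; ok v99 && (
  let v100 := scale ⟨0, 8365513244672, 0, 0⟩ v84; ok v100 && (
  let v101 := add v99 v100; ok v101 && (
  let v102 := scale ⟨420146118656, 0, 0, 0⟩ v89; ok v102 && (
  let v103 := add v101 v102; ok v103 && (
  let v104 := cst ⟨1440580829184, 0, 0, 0⟩; ok v104 && (
  let v105 := add v103 v104; ok v105 && (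
  let v106 := mul x0 v18; ok v106 && (
  let v107 := mul v106 v105; ok v107 && (
  let v108 := add v107 v0; ok v108 && (
  let v109 := mul v94 v108; ok v109 && (
  let v110 := scale ⟨1099511627776, 0, 0, 0⟩ v91; ok v110 && (
  let v111 := add v110 v0; ok v111 && (
  let v112 := mul v90 v111; ok v112 && (
  let v113 := scale ⟨2199023255552, 0, 0, 0⟩ v112; ok v113 && (
  let v114 := mul v105 v94; ok v114 && (
  let v115 := sub v113 v114; ok v115 && (
  isPos 2 v115 && (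
  let v116 := scale ⟨95080939520, 0, 0, 0⟩ v86; ok v116 && (
  let v117 := scale ⟨0, 4426760192, 0, 0⟩ v87; ok v117 && (
  let v118 := add v116 v117; ok v118 && (
  let v119 := scale ⟨0, 20395130880, 0, 0⟩ v88; ok v119 && (
  let v120 := add v118 v119; ok v120 && (
  let v121 := scale ⟨5346754035712, 0, 0, 0⟩ v84; ok v121 && (
  let v122 := add v120 v121; ok v122 && (
  let v123 := scale ⟨1163683561472, 0, 0, 0⟩ v89; ok v123 && (
  let v124 := add v122 v123; ok v124 && (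
  let v125 := cst ⟨356821696512, 0, 0, 0⟩; ok v125 && (
  let v126 := add v124 v125; ok v126 && (
  isPos 2 v126 && (
  let v127 := cst ⟨15102178754560, 0, 0, 0⟩; ok v127 && (
  let v128 := add v19 v127; ok v128 && (
  isPos 2 v128 && (
  let v129 := cst ⟨20300431360, 0, 0, 0⟩; ok v129 && (
  let v130 := sub x0 v129; ok v130 && (
  let v131 := cst ⟨1649267441664, 0, 0, 0⟩; ok v131 && (
  let v132 := sub x1 v131; ok v132 && (
  let v133 := mul v132 v132; ok v133 && (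
  let v134 := mul v133 v132; ok v134 && (
  let v135 := mul v130 v132; ok v135 && (
  let v136 := mul v4 v4; ok v136 && (
  let v137 := mul v136 v136; ok v137 && (
  let v138 := scale ⟨13194139533312, 0, 0, 0⟩ v1; ok v138 && (
  let v139 := neg v138; ok v139 && (
  let v140 := exp v139; ok v140 && (
  let v141 := scale ⟨0, 98096644096, 0, 0⟩ v132; ok v141 && (
  let v142 := scale ⟨0, 14399897600, 0, 0⟩ v133; ok v142 && (
  let v143 := add v141 v142; ok v143 && (
  let v144 := scale ⟨44771442688, 0, 0, 0⟩ v134; ok v144 && (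
  let v145 := add v143 v144; ok v145 && (
  let v146 := scale ⟨0, 3018759208960, 0, 0⟩ v130; ok v146 && (
  let v147 := add v145 v146; ok v147 && (
  let v148 := scale ⟨1583829680128, 0, 0, 0⟩ v135; ok v148 && (
  let v149 := add v147 v148; ok v149 && (
  let v150 := cst ⟨1797402525696, 0, 0, 0⟩; ok v150 && (
  let v151 := add v149 v150; ok v151 && (
  let v152 := mul x0 v18; ok v152 && (
  let v153 := mul v152 v151; ok v153 && (
  let v154 := add v153 v0; ok v154 && (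
  let v155 := mul v140 v154; ok v155 && (
  let v156 := scale ⟨1099511627776, 0, 0, 0⟩ v137; ok v156 && (
  let v157 := add v156 v0; ok v157 && (
  let v158 := mul v137 v157; ok v158 && (
  let v159 := add v158 v0; ok v159 && (
  let v160 := mul v136 v159; ok v160 && (
  let v161 := scale ⟨2199023255552, 0, 0, 0⟩ v160; ok v161 && (
  let v162 := mul v151 v140; ok v162 && (
  let v163 := sub v161 v162; ok v163 && (
  isPos 2 v163 && (
  let v164 := scale ⟨93885890560, 0, 0, 0⟩ v132; ok v164 && (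
  let v165 := scale ⟨826998784, 0, 0, 0⟩ v133; ok v165 && (
  let v166 := add v164 v165; ok v166 && (
  let v167 := scale ⟨0, 13138788352, 0, 0⟩ v134; ok v167 && (
  let v168 := add v166 v167; ok v168 && (
  let v169 := scale ⟨5392374693888, 0, 0, 0⟩ v130; ok v169 && (
  let v170 := add v168 v169; ok v170 && (
  let v171 := scale ⟨2195692257280, 0, 0, 0⟩ v135; ok v171 && (
  let v172 := add v170 v171; ok v172 && (
  let v173 := cst ⟨359778746368, 0, 0, 0⟩; ok v173 && (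
  let v174 := add v172 v173; ok v174 && (
  isPos 2 v174 && (
  let v175 := cst ⟨17824114278400, 0, 0, 0⟩; ok v175 && (
  let v176 := add v19 v175; ok v176 && (
  isPos 2 v176 && (
  let v177 := cst ⟨20300431360, 0, 0, 0⟩; ok v177 && (
  let v178 := sub x0 v177; ok v178 && (
  let v179 := cst ⟨1649267441664, 0, 0, 0⟩; ok v179 && (
  let v180 := sub x1 v179; ok v180 && (
  let v181 := mul v180 v180; ok v181 && (
  let v182 := mul v181 v180; ok v182 && (
  let v183 := mul v178 v180; ok v183 && (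
  let v184 := mul v4 v4; ok v184 && (
  let v185 := mul v184 v184; ok v185 && (
  let v186 := scale ⟨17592186044416, 0, 0, 0⟩ v1; ok v186 && (
  let v187 := neg v186; ok v187 && (
  let v188 := exp v187; ok v188 && (
  let v189 := scale ⟨0, 4210753536, 0, 0⟩ v180; ok v189 && (
  let v190 := scale ⟨0, 13572898816, 0, 0⟩ v181; ok v190 && (
  let v191 := add v189 v190; ok v191 && (
  let v192 := scale ⟨31632654336, 0, 0, 0⟩ v182; ok v192 && (
  let v193 := add v191 v192; ok v193 && (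
  let v194 := scale ⟨2373615484928, 0, 0, 0⟩ v178; ok v194 && (
  let v195 := add v193 v194; ok v195 && (
  let v196 := scale ⟨3779521937408, 0, 0, 0⟩ v183; ok v196 && (
  let v197 := add v195 v196; ok v197 && (
  let v198 := cst ⟨2157181272064, 0, 0, 0⟩; ok v198 && (
  let v199 := add v197 v198; ok v199 && (
  let v200 := mul x0 v18; ok v200 && (
  let v201 := mul v200 v199; ok v201 && (
  let v202 := add v201 v0; ok v202 && (
  let v203 := mul v188 v202; ok v203 && (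
  let v204 := scale ⟨1099511627776, 0, 0, 0⟩ v185; ok v204 && (
  let v205 := add v204 v0; ok v205 && (
  let v206 := mul v185 v205; ok v206 && (
  let v207 := add v206 v0; ok v207 && (
  let v208 := mul v185 v207; ok v208 && (
  let v209 := add v208 v0; ok v209 && (
  let v210 := mul v184 v209; ok v210 && (
  let v211 := scale ⟨2199023255552, 0, 0, 0⟩ v210; ok v211 && (
  let v212 := mul v199 v188; ok v212 && (
  let v213 := sub v211 v212; ok v213 && (
  isPos 2 v213 && (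
  let v214 := scale ⟨100049485824, 0, 0, 0⟩ v180; ok v214 && (
  let v215 := scale ⟨10987175936, 0, 0, 0⟩ v181; ok v215 && (
  let v216 := add v214 v215; ok v216 && (
  let v217 := scale ⟨0, 12518621184, 0, 0⟩ v182; ok v217 && (
  let v218 := add v216 v217; ok v218 && (
  let v219 := scale ⟨6463663374336, 0, 0, 0⟩ v178; ok v219 && (
  let v220 := add v218 v219; ok v220 && (
  let v221 := scale ⟨3024049864704, 0, 0, 0⟩ v183; ok v221 && (
  let v222 := add v220 v221; ok v222 && (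
  let v223 := cst ⟨377050300416, 0, 0, 0⟩; ok v223 && (
  let v224 := add v222 v223; ok v224 && (
  isPos 2 v224 && (
  let v225 := cst ⟨20250770800640, 0, 0, 0⟩; ok v225 && (
  let v226 := add v19 v225; ok v226 && (
  isPos 2 v226 && (
  let v227 := cst ⟨20300431360, 0, 0, 0⟩; ok v227 && (
  let v228 := sub x0 v227; ok v228 && (
  let v229 := cst ⟨1649267441664, 0, 0, 0⟩; ok v229 && (
  let v230 := sub x1 v229; ok v230 && (
  let v231 := mul v230 v230; ok v231 && (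
  let v232 := mul v231 v230; ok v232 && (
  let v233 := mul v228 v230; ok v233 && (
  let v234 := mul v4 v4; ok v234 && (
  let v235 := mul v234 v234; ok v235 && (
  let v236 := scale ⟨21990232555520, 0, 0, 0⟩ v1; ok v236 && (
  let v237 := neg v236; ok v237 && (
  let v238 := exp v237; ok v238 && (
  let v239 := scale ⟨95838732288, 0, 0, 0⟩ v230; ok v239 && (
  let v240 := scale ⟨0, 2585722880, 0, 0⟩ v231; ok v240 && (
  let v241 := add v239 v240; ok v241 && (
  let v242 := scale ⟨19114033152, 0, 0, 0⟩ v232; ok v242 && (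
  let v243 := add v241 v242; ok v243 && (
  let v244 := scale ⟨8837278859264, 0, 0, 0⟩ v228; ok v244 && (
  let v245 := add v243 v244; ok v245 && (
  let v246 := scale ⟨6803571802112, 0, 0, 0⟩ v233; ok v246 && (
  let v247 := add v245 v246; ok v247 && (
  let v248 := cst ⟨2534231572480, 0, 0, 0⟩; ok v248 && (
  let v249 := add v247 v248; ok v249 && (
  let v250 := mul x0 v18; ok v250 && (
  let v251 := mul v250 v249; ok v251 && (
  let v252 := add v251 v0; ok v252 && (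
  let v253 := mul v238 v252; ok v253 && (
  let v254 := scale ⟨1099511627776, 0, 0, 0⟩ v235; ok v254 && (
  let v255 := add v254 v0; ok v255 && (
  let v256 := mul v235 v255; ok v256 && (
  let v257 := add v256 v0; ok v257 && (
  let v258 := mul v235 v257; ok v258 && (
  let v259 := add v258 v0; ok v259 && (
  let v260 := mul v235 v259; ok v260 && (
  let v261 := add v260 v0; ok v261 && (
  let v262 := mul v234 v261; ok v262 && (
  let v263 := scale ⟨2199023255552, 0, 0, 0⟩ v262; ok v263 && (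
  let v264 := mul v249 v238; ok v264 && (
  let v265 := sub v263 v264; ok v265 && (
  isPos 2 v265 && (
  let v266 := mul x0 v18; ok v266 && (
  let v267 := mul v266 v249; ok v267 && (
  let v268 := add v267 v0; ok v268 && (
  let v269 := scale ⟨4837850742784, 0, 0, 0⟩ v1; ok v269 && (
  let v270 := neg v269; ok v270 && (
  let v271 := exp v270; ok v271 && (
  let v272 := mul v268 v271; ok v272 && (
  isLt v272 1099511627520 && (
  true))))))))))))))))))))))))))))))))))))))))))))))))))))))))))))))))))))))))))))))))))))))))))))))))))))))))))))))))))))))))))))))))))))))))))))))))))))))))))))))))))))))))))))))))))))))))))))))))))))))))))))))))))))))))))))))))))))))))))))))))))))))))))))))))))))))))))))))))))))))))))))))))))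
  | _ => false

set_option maxRecDepth 1000000 in
theorem c_S_0_eq (X : XOps) (m : List X.O.α)
    (h : c_S_0 X.O.cst X.O.add X.O.sub X.O.mul X.O.scale X.O.neg X.O.inv X.O.exp X.O.log X.O.ok
      X.O.isPos X.O.isLt X.ball X.rball m = true) :
    runX X 2 p_S_0 m = true := by
  match m, h with
  | [x0, x1], h => exact h

abbrev gS : List (List Op) := [p_S_0]

noncomputable abbrev kS : List (List xE.O.α → Bool) := [c_S_0 xE.O.cst xE.O.add xE.O.sub xE.O.mul xE.O.scale xE.O.neg xE.O.inv xE.O.exp xE.O.log xE.O.ok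
      xE.O.isPos xE.O.isLt xE.ball xE.rball]

theorem kS_eq : List.Forall₂ (fun (ops : List Op) (chk : List xE.O.α → Bool) =>
    ∀ m, chk m = true → runX xE 2 ops m = true) gS kS :=
  List.Forall₂.cons (c_S_0_eq xE) List.Forall₂.nil

theorem gS_eq : gS = [PSS tab 5] := by decide +kernel

end Pool.Agent.helper14.NS.Q45d
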