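import Pool.Agent.helper14.NS.Cert

/-!
Generated: table Q45d.
-/

namespace Pool.Agent.helper14.NS.Q45d

open Pool.Agent.helper63.NF Pool.Agent.helper4.NS

def tab : TD where
  strip := false
  bm := none
  ec := 20300431360
  bc := 1649267441664
  H := [[[-9821247232, 20592464448, -4489442304, 2481014208], [-1532928944192, -376911297600], [13188742281408]], [[1046090368, -2326898624, 1166315648], [355642641664, 24216638272]], [[-6515904, 143228864, -246099072], [-45705931904]], [[-8831808, -5331200], [2420987136]], [[2241216, -338432]], [[-193024]], [[8128]]]
  pol := some ⟨-1468610379776, -39771397160960, 5872294035456, 31362867265536, [[-25741162368, -96718763392], [-2966141020928, 0]], [[789029931200, -228623102912], [63335249955008, 0]]⟩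
  a := [[[332492308480, 0, 0, 0], [0, 0]], [[65311014912, 0, 0, 0], [0, 0]], [[57394528256, 0, 0, 0], [0, 0]], [[53568208896, 0, 0, 0], [0, 0]], [[53568208896, 0, 0, 0], [0, 0]]]
  j := [0, 0, 0, 0, 0]
  c := [879662989312, 879662989312, 769604452352, 605858824192, 505732399104]
  M := [[[[1099421319168, -11534336, 3196256256], [-100316676096, 1322457300992], [40904732508160]], [[61236641792, 30521688064], [5018140999680]], [[12967084032, -61078175744], [493571866624]], [[168512716800]], [[-244647460864]], [[214485762048]]], [[[1103967092736, 6811877376, 3101491200], [750341128192]], [[11142234112, 435224576], [562849251328]], [[-362479616]], [[26869760]]], [[[1104304603136, 5218697216, 2303721472], [711810482176]], [[10554376192, 476577792], [562045517824]], [[-189726720]], [[14876672]]], [[[1104733208576, 4826398720, 2047672320], [530803392512]], [[10321002496, 509673472], [559783804928]], [[-95354880]], [[7077888]]], [[[1105354489856, 5885067264, 452919296], [378706329600]], [[10199760896, 320602112], [568687853568]], [[-40042496]], [[2621440]]]]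
  l0 := [[[3557928230016, 139994767552], [5274629240640]], [[1507403372032, -59284299328], [-16213791884480]], [[386144415488, -412171765696], [-31983094866112]], [[72265417472, 638571246912], [17718828819904]], [[1399167112384, -314362621568], [-17831066888128]], [[-4194173167552, -231958503296], [-39867433827136]], [[12306001486336]], [[-29379331501504]], [[44844150310528]], [[-55556734491776]], [[39100974011264]], [[-23325590959680]]]
  q0 := [[122753118592, 86017702976, 5432820352], [6799371285312, 5043486583040], [13271688248128]]
  t := [[[1058446180352, -292462723072, -3659988992, 91393425408], [-14341765201920, -968295448576]], [[382134648832, 99285139456, -6313148416, -26226851840], [5976251957248, 1388441567232]], [[356821696512, 95080939520, -4426760192, -20395130880], [5346754035712, 1163683561472]], [[359778746368, 93885890560, 826998784, -13138788352], [5392374693888, 2195692257280]], [[377050300416, 100049485824, 10987175936, -12518621184], [6463663374336, 3024049864704]]]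
  y := [9351217545216, 12236361826304, 15102178754560, 17824114278400, 20250770800640]
  sc := [0, 0, 0, 0, 0]
  L := [(0, 2), (0, 3), (1, 1), (2, 0)]
  Lt := [(0, 2), (0, 3), (1, 1)]
  far := 3
  x2 := 10775214161920
  B1 := 1429364277248
  C2 := 1529755045888
  f1 := 0
  f2 := 0
  f3 := 0
  is1 := 8796093022208
  s1 := 137438953472

end Pool.Agent.helper14.NS.Q45d
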